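import Mathlib
import Pool.Agent.H934.Defs
set_option autoImplicit false
set_option linter.unusedSectionVars false
set_option linter.unusedVariables false

/-!
# Stability conditions and Serre functors for linear triangulated categories over a field
-/

open CategoryTheory CategoryTheory.Limits CategoryTheory.Pretriangulated

namespace Pool.Agent.H934.K

universe w v u

section linear

variable {𝕜 : Type w} [Field 𝕜] {T : Type u} [Category.{v} T] [Preadditive T]
  [HasZeroObject T] [HasShift T ℤ]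
  [∀ n : ℤ, (shiftFunctor T n).Additive] [Pretriangulated T] [Linear 𝕜 T]

variable (𝕜) in
/-- The Euler form `χ(E, F)`, the alternating sum of the dimensions of the spaces of morphisms
`E ⟶ F⟦i⟧`. -/
noncomputable def eul (E F : T) : ℤ :=
  ∑ᶠ i : ℤ, (i.negOnePow : ℤ) * (Module.finrank 𝕜 (E ⟶ F⟦i⟧) : ℤ)

variable (𝕜 T) in
/-- All the spaces of morphisms `E ⟶ F⟦i⟧` are finite-dimensional, and for given `E` and `F` only
finitely many of them are nonzero. -/
structure ExtFinite : Prop where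
  fin : ∀ (E F : T) (i : ℤ), Module.Finite 𝕜 (E ⟶ F⟦i⟧)
  bdd : ∀ E F : T, ∃ N : ℤ, ∀ i : ℤ, i < -N ∨ N < i → ∀ g : E ⟶ F⟦i⟧, g = 0

variable (𝕜 T) in
/-- The numerical Grothendieck group `N(T)`, the Grothendieck group modulo the kernel of the Euler
form, realised as the group of functions `F ↦ χ(F, v)`: it is generated by the functions
`F ↦ χ(F, E)` for the objects `E`. -/
def Num : AddSubgroup (T → ℤ) :=
  AddSubgroup.closure (Set.range fun (E : T) (F : T) => eul 𝕜 F E)

variable (𝕜) in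
/-- The class of an object in the numerical Grothendieck group. -/
noncomputable def ncl (E : T) : Num 𝕜 T :=
  ⟨fun F => eul 𝕜 F E, AddSubgroup.subset_closure ⟨E, rfl⟩⟩

variable (𝕜 T) in
/-- A Serre functor: an autoequivalence `S` with bifunctorial isomorphisms
`Hom(E, F) ≅ Hom(F, S E)^*`. -/
structure SerreFunctor where
  /-- the autoequivalence -/
  S : T ≌ T
  /-- the duality -/
  η : ∀ E F : T, (E ⟶ F) ≃ₗ[𝕜] Module.Dual 𝕜 (F ⟶ S.functor.obj E)
  nat_left : ∀ {E E' F : T} (f : E' ⟶ E) (g : E ⟶ F) (h : F ⟶ S.functor.obj E'),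
    η E' F (f ≫ g) h = η E F g (h ≫ S.functor.map f)
  nat_right : ∀ {E F F' : T} (g : E ⟶ F) (f : F ⟶ F') (h : F' ⟶ S.functor.obj E),
    η E F' (g ≫ f) h = η E F g (f ≫ h)

variable (T) in
/-- `T` is of finite type, its Serre functor satisfies `S³ ≅ [k]` (it is fractional Calabi-Yau of
dimension `k / 3`), and its numerical Grothendieck group has rank two and negative definite Euler
form. -/
structure FracCY (𝒮 : SerreFunctor 𝕜 T) (k : ℤ) : Prop where
  ext : ExtFinite 𝕜 T
  rank : Module.finrank ℤ (Num 𝕜 T) = 2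
  neg : ∀ E : T, ncl 𝕜 E ≠ 0 → eul 𝕜 E E < 0
  cy : ∀ E : T, Nonempty (𝒮.S.functor.obj (𝒮.S.functor.obj (𝒮.S.functor.obj E)) ≅ E⟦k⟧)

variable (𝕜 T) in
/-- Bridgeland stability conditions whose central charge factors through the numerical
Grothendieck group and which satisfy the support property. (As `N(T)` has finite rank, finitely
many of the functions `χ(F, -)` define a norm on it, so `support` is the usual property
`‖[E]‖ ≤ C |Z(E)|` for semistable `E`.) -/
structure StabCond extends Slicing T where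
  /-- the central charge -/
  Z : Num 𝕜 T →+ ℂ
  phase : ∀ φ E, P φ E → ¬ IsZero E → ∃ m : ℝ, 0 < m ∧
    Z (ncl 𝕜 E) = m * Complex.exp (Real.pi * φ * Complex.I)
  support : ∀ F : T, ∃ C : ℝ, ∀ φ E, P φ E → |(eul 𝕜 F E : ℝ)| ≤ C * ‖Z (ncl 𝕜 E)‖

/-- `S · σ = σ · G` for some `G` in the universal cover, that is `Z(S E) = G Z(E)` for all `E`, and
`S` maps `P(φ)` onto `P(G φ)`. -/
def SerreInvariant (𝒮 : SerreFunctor 𝕜 T) (σ : StabCond 𝕜 T) : Prop :=
  ∃ G : GLTilde, (∀ E : T, σ.Z (ncl 𝕜 (𝒮.S.functor.obj E)) = G.g (σ.Z (ncl 𝕜 E))) ∧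
    ∀ (φ : ℝ) (E : T), σ.P φ E ↔ σ.P (G.f φ) (𝒮.S.functor.obj E)

/-- `τ = σ · G` for some `G` in the universal cover: `Z_τ = G⁻¹ ∘ Z_σ` and
`P_τ(φ) = P_σ(G φ)`. -/
def SameOrbit (σ τ : StabCond 𝕜 T) : Prop :=
  ∃ G : GLTilde, (∀ v : Num 𝕜 T, τ.Z v = G.g.symm (σ.Z v)) ∧
    ∀ (φ : ℝ) (E : T), τ.P φ E ↔ σ.P (G.f φ) E

end linear

end Pool.Agent.H934.K
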