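import Mathlib
import Pool.Agent.H934.K.Tri
import Pool.Agent.H934.K.Defs
import Pool.Agent.H934.GL
set_option autoImplicit false
set_option linter.unusedSectionVars false
set_option linter.unusedVariables false

open CategoryTheory CategoryTheory.Limits CategoryTheory.Pretriangulated ZeroObject

namespace Pool.Agent.H934.K

universe w v u

variable {𝕜 : Type w} [Field 𝕜] {T : Type u} [Category.{v} T] [Preadditive T] [HasZeroObject T] [HasShift T ℤ]
  [∀ n : ℤ, (shiftFunctor T n).Additive] [Pretriangulated T] [IsTriangulated T] [Linear 𝕜 T]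
  [∀ n : ℤ, (shiftFunctor T n).Linear 𝕜]

/-- Application of the Serre functor to an object. -/
abbrev SerreFunctor.o (𝒮 : SerreFunctor 𝕜 T) (E : T) : T := 𝒮.S.functor.obj E
/-- Application of the inverse of the Serre functor to an object. -/
abbrev SerreFunctor.i (𝒮 : SerreFunctor 𝕜 T) (E : T) : T := 𝒮.S.inverse.obj E

lemma eul_iso_right {E F F' : T} (e : F ≅ F') : eul 𝕜 E F = eul 𝕜 E F' :=
  chi_iso_right e
lemma eul_iso_left {E E' F : T} (e : E ≅ E') : eul 𝕜 E F = eul 𝕜 E' F :=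
  chi_iso_left e

lemma ExtFinite.nice (h : ExtFinite 𝕜 T) (E F : T) : Nice 𝕜 E F :=
  ⟨h.fin E F, h.bdd E F⟩

lemma eul_add (h : ExtFinite 𝕜 T) {Δ : Triangle T} (hΔ : Δ ∈ distTriang T) (E : T) :
    eul 𝕜 E Δ.obj₂ = eul 𝕜 E Δ.obj₁ + eul 𝕜 E Δ.obj₃ :=
  chi_add hΔ (h.nice _ _) (h.nice _ _) (h.nice _ _)

lemma eul_shift (E F : T) (n : ℤ) : eul 𝕜 E (F⟦n⟧) = (n.negOnePow : ℤ) * eul 𝕜 E F := by
  unfold eul
  have h1 : ∀ i : ℤ, Module.finrank 𝕜 (E ⟶ (F⟦n⟧)⟦i⟧) = Module.finrank 𝕜 (E ⟶ F⟦n + i⟧) :=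
    fun i => (postcompEquiv ((shiftFunctorAdd T n i).symm.app F) E).finrank_eq
  have h2 : ∀ i : ℤ, (i.negOnePow : ℤ) = (n.negOnePow : ℤ) * ((n + i).negOnePow : ℤ) := by
    intro i
    rw [Int.negOnePow_add]
    have : (n.negOnePow : ℤ) * (n.negOnePow : ℤ) = 1 := by
      rw [← Units.val_mul, ← Int.negOnePow_add, Int.negOnePow_even _ ⟨n, rfl⟩]; rfl
    rw [Units.val_mul, ← mul_assoc, this, one_mul]
  rw [← smul_eq_mul (n.negOnePow : ℤ), smul_finsum]
  refine Eq.trans ?_ (finsum_comp_equiv (Equiv.addLeft n)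
    (f := fun i : ℤ => (n.negOnePow : ℤ) • ((i.negOnePow : ℤ) *
      (Module.finrank 𝕜 (E ⟶ F⟦i⟧) : ℤ))))
  refine finsum_congr fun i => ?_
  rw [h1, h2, Equiv.coe_addLeft, smul_eq_mul, mul_assoc]

lemma eul_shift_one (E F : T) : eul 𝕜 E (F⟦(1 : ℤ)⟧) = - eul 𝕜 E F := by
  rw [eul_shift]
  simp

lemma eul_serre (𝒮 : SerreFunctor 𝕜 T) (E F : T) : eul 𝕜 E F = eul 𝕜 F (𝒮.o E) := by
  refine chi_dual (E' := 𝒮.o E) (F' := F) (fun i => ?_)
  rw [(𝒮.η E (F⟦i⟧)).finrank_eq, Subspace.dual_finrank_eq]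
  have h := (homShift (𝕜 := 𝕜) F (𝒮.o E) (-i)).finrank_eq
  rw [neg_neg] at h
  exact h.symm

lemma eul_left (𝒮 : SerreFunctor 𝕜 T) (E F : T) : eul 𝕜 E F = eul 𝕜 (𝒮.i F) E := by
  rw [eul_serre 𝒮 (𝒮.i F) E]
  exact eul_iso_right (𝒮.S.counitIso.app F).symm

lemma eul_S_S (𝒮 : SerreFunctor 𝕜 T) (E F : T) : eul 𝕜 (𝒮.o E) (𝒮.o F) = eul 𝕜 E F := by
  rw [eul_serre 𝒮 E F, eul_serre 𝒮 F (𝒮.o E)]

lemma eul_S_right (𝒮 : SerreFunctor 𝕜 T) (E F : T) : eul 𝕜 E (𝒮.o F) = eul 𝕜 (𝒮.i E) F := by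
  rw [← eul_serre 𝒮 F E, eul_left 𝒮]

lemma eul_add_left (h : ExtFinite 𝕜 T) (𝒮 : SerreFunctor 𝕜 T) {Δ : Triangle T}
    (hΔ : Δ ∈ distTriang T) (F : T) : eul 𝕜 Δ.obj₂ F = eul 𝕜 Δ.obj₁ F + eul 𝕜 Δ.obj₃ F := by
  rw [eul_left 𝒮 _ F, eul_left 𝒮 _ F, eul_left 𝒮 _ F, eul_add h hΔ]

/-- Sums of classes are classes. -/
lemma exists_sum (h : ExtFinite 𝕜 T) (A B : T) :
    ∃ Y : T, ∀ F, eul 𝕜 F Y = eul 𝕜 F A + eul 𝕜 F B := by
  obtain ⟨Y, f, g, ht⟩ := distinguished_cocone_triangle₂ (0 : B ⟶ A⟦(1 : ℤ)⟧)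
  exact ⟨Y, fun F => eul_add h ht F⟩

lemma ncl_eq_zero_iff (E : T) : ncl 𝕜 E = 0 ↔ ∀ F, eul 𝕜 F E = 0 := by
  constructor
  · intro h F
    exact congrFun (congrArg Subtype.val h) F
  · intro h
    apply Subtype.ext
    funext F
    exact h F

section rel

variable {𝒮 : SerreFunctor 𝕜 T} {k : ℤ} (h : FracCY T 𝒮 k) (hk : Odd k)

include h hk

/-- The Serre functor satisfies `S² - S + 1 = 0` numerically. -/
lemma eul_rel (F X : T) : eul 𝕜 F (𝒮.o (𝒮.o X)) - eul 𝕜 F (𝒮.o X) + eul 𝕜 F X = 0 := by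
  obtain ⟨Y₁, hY₁⟩ := exists_sum h.ext (𝒮.o (𝒮.o X)) X
  obtain ⟨Y, hY⟩ := exists_sum h.ext Y₁ ((𝒮.o X)⟦(1 : ℤ)⟧)
  have hY' : ∀ F, eul 𝕜 F Y = eul 𝕜 F (𝒮.o (𝒮.o X)) - eul 𝕜 F (𝒮.o X) + eul 𝕜 F X := by
    intro F
    rw [hY, hY₁, eul_shift_one]; ring
  rw [← hY']
  have h3 : ∀ F, eul 𝕜 F (𝒮.o Y) = - eul 𝕜 F Y := by
    intro F
    rw [eul_S_right 𝒮, hY', hY', ← eul_S_right 𝒮, ← eul_S_right 𝒮, ← eul_S_right 𝒮]
    obtain ⟨e⟩ := h.cy X
    rw [eul_iso_right e, eul_shift, Int.negOnePow_odd _ hk]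
    simp
    ring
  have h4 : eul 𝕜 Y Y = 0 := by
    have h5 := h3 Y
    rw [← eul_serre 𝒮] at h5
    linarith
  by_contra h6
  have h7 : ncl 𝕜 Y ≠ 0 := fun h8 => h6 ((ncl_eq_zero_iff Y).1 h8 F)
  have := h.neg Y h7
  linarith

variable {X : T} (hX : ncl 𝕜 X ≠ 0)

lemma eul_SX_X : eul 𝕜 (𝒮.o X) X = 0 := by
  have h1 := eul_rel h hk (𝒮.o X) X
  rw [eul_S_S, eul_S_S] at h1
  rw [← eul_serre 𝒮 X X] at h1
  linarith

/-- The dependence relation. -/
lemma exists_dep (hX : ncl 𝕜 X ≠ 0) (Y : T) : ∃ (n a b : ℤ), n ≠ 0 ∧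
    n • ncl 𝕜 Y = a • ncl 𝕜 X + b • ncl 𝕜 (𝒮.o X) := by
  have hq := h.neg X hX
  have h1 : ¬ LinearIndependent ℤ ![ncl 𝕜 Y, ncl 𝕜 X, ncl 𝕜 (𝒮.o X)] := by
    intro h2
    have h3 := h2.cardinal_lift_le_rank
    have h4 : Module.rank ℤ (Num 𝕜 T) = 2 := by
      have := h.rank
      rw [← Module.rank_eq_ofNat_iff_finrank_eq_ofNat] at this
      exact this
    rw [h4] at h3
    simp only [Cardinal.mk_fintype, Fintype.card_fin, Cardinal.lift_natCast,
      Cardinal.lift_ofNat] at h3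
    have : (3 : ℕ) ≤ 2 := by exact_mod_cast h3
    omega
  rw [Fintype.linearIndependent_iff] at h1
  push Not at h1
  obtain ⟨c, hc, i, hi⟩ := h1
  rw [Fin.sum_univ_three] at hc
  simp only [Matrix.cons_val_zero, Matrix.cons_val_one, Matrix.cons_val] at hc
  have ev : ∀ F, c 0 * eul 𝕜 F Y + c 1 * eul 𝕜 F X + c 2 * eul 𝕜 F (𝒮.o X) = 0 := by
    intro F
    have := congrFun (congrArg Subtype.val hc) F
    simpa [ncl] using this
  by_cases h0 : c 0 = 0
  · exfalso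
    have e1 := ev (𝒮.o X)
    have e2 := ev X
    rw [h0, eul_SX_X h hk, eul_S_S] at e1
    rw [h0, ← eul_serre 𝒮 X X] at e2
    have e3 : c 2 = 0 := by
      have : c 2 * eul 𝕜 X X = 0 := by linarith
      rcases mul_eq_zero.1 this with h5 | h5
      · exact h5
      · exact absurd h5 hq.ne
    have e4 : c 1 = 0 := by
      rw [e3] at e2
      have : c 1 * eul 𝕜 X X = 0 := by linarith
      rcases mul_eq_zero.1 this with h5 | h5
      · exact h5
      · exact absurd h5 hq.ne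
    fin_cases i
    · exact hi h0
    · exact hi e4
    · exact hi e3
  · refine ⟨c 0, - c 1, - c 2, h0, ?_⟩
    rw [neg_smul, neg_smul]
    have : c 0 • ncl 𝕜 Y + c 1 • ncl 𝕜 X + c 2 • ncl 𝕜 (𝒮.o X) = 0 := hc
    rw [← sub_eq_zero, ← this]
    abel

end rel

/-- The numerical data of a fractional Calabi-Yau category with Euler form of rank two, where the
Serre functor multiplies by the unit vector of phase `s`. -/
structure NumData (𝒮 : SerreFunctor 𝕜 T) (s : ℝ) where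
  /-- the class of an object as a complex number -/
  Z : T → ℂ
  /-- the norm of the reference object -/
  q : ℝ
  /-- the slope of the form -/
  κ : ℝ
  hq : 0 < q
  hκ : κ * (uv s).im = 1 / 2
  add : ∀ Δ : Triangle T, Δ ∈ distTriang T → Z Δ.obj₂ = Z Δ.obj₁ + Z Δ.obj₃
  iso : ∀ E F : T, (E ≅ F) → Z E = Z F
  serre : ∀ E, Z (𝒮.o E) = uv s * Z E
  chi : ∀ E F, (eul 𝕜 E F : ℝ) = -q * (((starRingEnd ℂ) (Z E) * Z F).re +
    κ * ((starRingEnd ℂ) (Z E) * Z F).im)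
  lin : ∀ W : Num 𝕜 T →+ ℂ, ∃ L : ℂ →ₗ[ℝ] ℂ, ∀ E, W (ncl 𝕜 E) = L (Z E)
  ref : ∃ X, Z X = 1

/-- Existence of the numerical data with a given reference object. -/
theorem exists_numData {𝒮 : SerreFunctor 𝕜 T} {k : ℤ} (h : FracCY T 𝒮 k) (hk : Odd k) {X : T}
    (hX : ncl 𝕜 X ≠ 0) {s : ℝ} (hre : (uv s).re = 1 / 2) (him : (uv s).im ^ 2 = 3 / 4) :
    ∃ D : NumData 𝒮 s, D.Z X = 1 ∧ D.q = - (eul 𝕜 X X : ℝ) := by
  have hqz := h.neg X hX
  have hq : 0 < - (eul 𝕜 X X : ℝ) := by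
    have : (eul 𝕜 X X : ℝ) < 0 := by exact_mod_cast hqz
    linarith
  set q : ℝ := - (eul 𝕜 X X : ℝ) with hqdef
  have hqne : q ≠ 0 := hq.ne'
  have him0 : (uv s).im ≠ 0 := by
    intro h0; rw [h0] at him; norm_num at him
  let β : T → ℝ := fun Y => - (eul 𝕜 (𝒮.o X) Y : ℝ) / q
  let α : T → ℝ := fun Y => - (eul 𝕜 X Y : ℝ) / q - β Y
  have hβ : ∀ Y, (eul 𝕜 (𝒮.o X) Y : ℝ) = - q * β Y := by
    intro Y; simp only [β]; field_simp
  have hαβ : ∀ Y, (eul 𝕜 X Y : ℝ) = - q * (α Y + β Y) := by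
    intro Y; simp only [α, sub_add_cancel]; field_simp
  have e1 : eul 𝕜 X (𝒮.o X) = eul 𝕜 X X := (eul_serre 𝒮 X X).symm
  have e2 : eul 𝕜 (𝒮.o X) X = 0 := eul_SX_X h hk
  have e3 : eul 𝕜 (𝒮.o X) (𝒮.o X) = eul 𝕜 X X := eul_S_S 𝒮 X X
  -- the expansion of classes
  have exp : ∀ (Y F : T), (eul 𝕜 F Y : ℝ) = α Y * eul 𝕜 F X + β Y * eul 𝕜 F (𝒮.o X) := by
    intro Y F
    obtain ⟨n, a, b, hn, hrel⟩ := exists_dep h hk hX Y
    have ev : ∀ F, (n : ℝ) * eul 𝕜 F Y = a * eul 𝕜 F X + b * eul 𝕜 F (𝒮.o X) := by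
      intro F
      have := congrFun (congrArg Subtype.val hrel) F
      have h2 : n * eul 𝕜 F Y = a * eul 𝕜 F X + b * eul 𝕜 F (𝒮.o X) := by simpa [ncl] using this
      exact_mod_cast h2
    have hnR : (n : ℝ) ≠ 0 := by exact_mod_cast hn
    have e4 := ev X
    have e5 := ev (𝒮.o X)
    rw [e1, hαβ Y] at e4
    rw [e2, e3, hβ Y] at e5
    have e6 : (eul 𝕜 X X : ℝ) = - q := by rw [hqdef]; ring
    rw [e6] at e4 e5
    have e7 : (n : ℝ) * β Y = b := by
      have h8 : q * ((n : ℝ) * β Y - b) = 0 := by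
        push_cast at e5; linarith
      rcases mul_eq_zero.1 h8 with h9 | h9
      · exact absurd h9 hqne
      · linarith
    have e8 : (n : ℝ) * α Y = a := by
      have h8 : q * ((n : ℝ) * (α Y + β Y) - (a + b)) = 0 := by
        linarith
      rcases mul_eq_zero.1 h8 with h9 | h9
      · exact absurd h9 hqne
      · linarith
    have e9 := ev F
    rw [← e7, ← e8] at e9
    have h10 : (n : ℝ) * (eul 𝕜 F Y - (α Y * eul 𝕜 F X + β Y * eul 𝕜 F (𝒮.o X))) = 0 := by linarith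
    rcases mul_eq_zero.1 h10 with h9 | h9
    · exact absurd h9 hnR
    · linarith
  have eX : ∀ Y, (eul 𝕜 Y X : ℝ) = - q * α Y := by
    intro Y
    rw [eul_left 𝒮 Y X, exp Y, ← eul_left 𝒮 X X, ← eul_left 𝒮 (𝒮.o X) X, e2]
    rw [hqdef]; push_cast; ring
  have eSX : ∀ Y, (eul 𝕜 Y (𝒮.o X) : ℝ) = - q * (α Y + β Y) := by
    intro Y
    rw [← eul_serre 𝒮 X Y, hαβ]
  have chi : ∀ E F, (eul 𝕜 E F : ℝ) = - q * (α E * α F + α E * β F + β E * β F) := by
    intro E F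
    rw [exp F E, eX, eSX]; ring
  have αS : ∀ Y, α (𝒮.o Y) = - β Y := by
    intro Y
    have h1 := hαβ (𝒮.o Y)
    have h2 := hβ (𝒮.o Y)
    rw [← eul_serre 𝒮 Y X, eX] at h1
    rw [eul_S_S, hαβ] at h2
    have h3 : q * (α (𝒮.o Y) + β (𝒮.o Y) - α Y) = 0 := by linarith
    have h4 : q * (β (𝒮.o Y) - (α Y + β Y)) = 0 := by linarith
    rcases mul_eq_zero.1 h3 with h9 | h9
    · exact absurd h9 hqne
    rcases mul_eq_zero.1 h4 with h10 | h10
    · exact absurd h10 hqne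
    linarith
  have βS : ∀ Y, β (𝒮.o Y) = α Y + β Y := by
    intro Y
    have h2 := hβ (𝒮.o Y)
    rw [eul_S_S, hαβ] at h2
    have h4 : q * (β (𝒮.o Y) - (α Y + β Y)) = 0 := by linarith
    rcases mul_eq_zero.1 h4 with h10 | h10
    · exact absurd h10 hqne
    linarith
  have hω : uv s * uv s = uv s - 1 := by
    apply Complex.ext
    · simp only [Complex.mul_re, Complex.sub_re, Complex.one_re, hre]
      nlinarith
    · simp only [Complex.mul_im, Complex.sub_im, Complex.one_im, hre]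
      ring
  let Z : T → ℂ := fun Y => (α Y : ℂ) + (β Y : ℂ) * uv s
  have hαX : α X = 1 := by
    have h1 := eX X
    have : q * (α X - 1) = 0 := by rw [hqdef] at h1 ⊢; linarith
    rcases mul_eq_zero.1 this with h10 | h10
    · exact absurd h10 hqne
    linarith
  have hβX : β X = 0 := by
    have h1 := hβ X
    rw [e2] at h1
    have : q * (β X) = 0 := by push_cast at h1; linarith
    rcases mul_eq_zero.1 this with h10 | h10
    · exact absurd h10 hqne
    exact h10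
  refine ⟨⟨Z, q, 1 / (2 * (uv s).im), hq, ?_, ?_, ?_, ?_, ?_, ?_, ?_⟩, ?_, rfl⟩
  · field_simp
  · intro Δ hΔ
    have h1 := eul_add h.ext hΔ X
    have h2 := eul_add h.ext hΔ (𝒮.o X)
    have h3 : β Δ.obj₂ = β Δ.obj₁ + β Δ.obj₃ := by
      simp only [β]; rw [h2]; push_cast; ring
    have h4 : α Δ.obj₂ = α Δ.obj₁ + α Δ.obj₃ := by
      simp only [α]; rw [h1, h3]; push_cast; ring
    simp only [Z]
    rw [h3, h4]; push_cast; ring
  · intro E F e
    have h1 : eul 𝕜 X E = eul 𝕜 X F := eul_iso_right e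
    have h2 : eul 𝕜 (𝒮.o X) E = eul 𝕜 (𝒮.o X) F := eul_iso_right e
    simp only [Z, α, β, h1, h2]
  · intro E
    simp only [Z]
    rw [αS, βS]
    push_cast
    linear_combination (- (β E : ℂ)) * hω
  · intro E F
    rw [chi]
    have h1 : (starRingEnd ℂ) (Z E) * Z F =
        ⟨α E * α F + β E * β F + (α E * β F + β E * α F) / 2,
          (α E * β F - β E * α F) * (uv s).im⟩ := by
      have hconj : (starRingEnd ℂ) (uv s) = ⟨(uv s).re, -(uv s).im⟩ := by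
        apply Complex.ext <;> simp
      apply Complex.ext
      · simp only [Z, map_add, map_mul, Complex.conj_ofReal, Complex.mul_re, Complex.add_re,
          Complex.add_im, Complex.ofReal_re, Complex.ofReal_im, Complex.mul_im, Complex.conj_re,
          Complex.conj_im, hre]
        linear_combination (β E * β F) * him
      · simp only [Z, map_add, map_mul, Complex.conj_ofReal, Complex.mul_re, Complex.add_re,
          Complex.add_im, Complex.ofReal_re, Complex.ofReal_im, Complex.mul_im, Complex.conj_re,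
          Complex.conj_im, hre]
        ring
    rw [h1]
    field_simp
    ring
  · intro W
    -- the linear map sending `1` to `W X` and `ω` to `W (S X)`
    let L : ℂ →ₗ[ℝ] ℂ :=
      { toFun := fun z => ((z.re - z.im / (2 * (uv s).im) : ℝ) : ℂ) * W (ncl 𝕜 X) +
          ((z.im / (uv s).im : ℝ) : ℂ) * W (ncl 𝕜 (𝒮.o X))
        map_add' := by
          intro x y
          simp only [Complex.add_re, Complex.add_im]
          push_cast
          ring
        map_smul' := by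
          intro r x
          simp only [Complex.real_smul, Complex.mul_re, Complex.mul_im, Complex.ofReal_re,
            Complex.ofReal_im, RingHom.id_apply]
          push_cast
          ring }
    refine ⟨L, fun Y => ?_⟩
    obtain ⟨n, a, b, hn, hrel⟩ := exists_dep h hk hX Y
    have hnC : (n : ℂ) ≠ 0 := by exact_mod_cast hn
    have ev : ∀ F, (n : ℝ) * eul 𝕜 F Y = a * eul 𝕜 F X + b * eul 𝕜 F (𝒮.o X) := by
      intro F
      have := congrFun (congrArg Subtype.val hrel) F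
      have h2 : n * eul 𝕜 F Y = a * eul 𝕜 F X + b * eul 𝕜 F (𝒮.o X) := by simpa [ncl] using this
      exact_mod_cast h2
    have e4 := ev X
    have e5 := ev (𝒮.o X)
    rw [e1, hαβ Y] at e4
    rw [e2, e3, hβ Y] at e5
    have e6 : (eul 𝕜 X X : ℝ) = - q := by rw [hqdef]; ring
    rw [e6] at e4 e5
    have e7 : (n : ℝ) * β Y = b := by
      have h8 : q * ((n : ℝ) * β Y - b) = 0 := by
        push_cast at e5; linarith
      rcases mul_eq_zero.1 h8 with h9 | h9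
      · exact absurd h9 hqne
      · linarith
    have e8 : (n : ℝ) * α Y = a := by
      have h8 : q * ((n : ℝ) * (α Y + β Y) - (a + b)) = 0 := by
        linarith
      rcases mul_eq_zero.1 h8 with h9 | h9
      · exact absurd h9 hqne
      · linarith
    have e9 := congrArg W hrel
    rw [map_zsmul, map_add, map_zsmul, map_zsmul] at e9
    simp only [zsmul_eq_mul] at e9
    have hL : L (Z Y) = (α Y : ℂ) * W (ncl 𝕜 X) + (β Y : ℂ) * W (ncl 𝕜 (𝒮.o X)) := by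
      change (((Z Y).re - (Z Y).im / (2 * (uv s).im) : ℝ) : ℂ) * W (ncl 𝕜 X) +
          (((Z Y).im / (uv s).im : ℝ) : ℂ) * W (ncl 𝕜 (𝒮.o X)) = _
      have h1 : (Z Y).im / (uv s).im = β Y := by
        simp only [Z, Complex.add_im, Complex.ofReal_im, Complex.mul_im, Complex.ofReal_re]
        field_simp
        ring
      have h2 : (Z Y).re - (Z Y).im / (2 * (uv s).im) = α Y := by
        have : (Z Y).im / (2 * (uv s).im) = β Y / 2 := by rw [← h1]; field_simp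
        rw [this]
        simp only [Z, Complex.add_re, Complex.ofReal_re, Complex.mul_re, Complex.ofReal_im, hre]
        ring
      rw [h1, h2]
    rw [hL]
    apply mul_left_cancel₀ hnC
    rw [e9]
    have e7' : (b : ℂ) = (n : ℂ) * (β Y : ℂ) := by exact_mod_cast e7.symm
    have e8' : (a : ℂ) = (n : ℂ) * (α Y : ℂ) := by exact_mod_cast e8.symm
    rw [e7', e8']
    ring
  · refine ⟨X, ?_⟩
    simp only [Z, hαX, hβX]
    simp
  · simp only [Z, hαX, hβX]
    simp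

end Pool.Agent.H934.K
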