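import Mathlib
import Pool.Agent.H934.Simple
import Pool.Agent.H934.K.Numer

set_option autoImplicit false
set_option linter.unusedSectionVars false
set_option linter.unusedVariables false

open CategoryTheory CategoryTheory.Limits CategoryTheory.Pretriangulated ZeroObject

namespace Pool.Agent.H934.K

universe w v u

variable {𝕜 : Type w} [Field 𝕜] {T : Type u} [Category.{v} T] [Preadditive T]
  [HasZeroObject T] [HasShift T ℤ]
  [∀ n : ℤ, (shiftFunctor T n).Additive] [Pretriangulated T] [IsTriangulated T] [Linear 𝕜 T]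
  [∀ n : ℤ, (shiftFunctor T n).Linear 𝕜]

open Pool.Agent.H934.Slicing

/-- Finitely many coordinates detect the elements of a finitely generated group of integer
functions. -/
lemma exists_detect_aux {X : Type*} (n : ℕ) : ∀ (M : Submodule ℤ (X → ℤ)), Module.Finite ℤ M →
    Module.finrank ℤ M = n → ∃ s : Finset X, ∀ v ∈ M, (∀ x ∈ s, v x = 0) → v = 0 := by
  induction n using Nat.strong_induction_on with
  | _ n ih =>
    intro M hM hn
    by_cases h0 : M = ⊥
    · subst h0
      exact ⟨∅, fun v hv _ => (Submodule.mem_bot ℤ).1 hv⟩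
    obtain ⟨v, hv, hv0⟩ := (Submodule.ne_bot_iff M).1 h0
    obtain ⟨x, hx⟩ : ∃ x, v x ≠ 0 := by
      by_contra hc
      push Not at hc
      exact hv0 (funext hc)
    let ev : (X → ℤ) →ₗ[ℤ] ℤ := LinearMap.proj x
    let M' : Submodule ℤ (X → ℤ) := M ⊓ LinearMap.ker ev
    have hle : M' ≤ M := inf_le_left
    have : IsNoetherian ℤ M := isNoetherian_of_isNoetherianRing_of_finite ℤ M
    have hfin : Module.Finite ℤ M' :=
      Module.Finite.of_injective (Submodule.inclusion hle) (Submodule.inclusion_injective hle)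
    let f : M →ₗ[ℤ] ℤ := ev.comp M.subtype
    have hrn := Submodule.finrank_quotient_add_finrank (LinearMap.ker f)
    rw [(LinearMap.quotKerEquivRange f).finrank_eq] at hrn
    have hk : Module.finrank ℤ (LinearMap.ker f) = Module.finrank ℤ M' := by
      have e : LinearMap.ker f = Submodule.comap M.subtype M' := by
        ext ⟨y, hy⟩
        simp only [LinearMap.mem_ker, Submodule.mem_comap, M', f, LinearMap.comp_apply,
          Submodule.subtype_apply, Submodule.mem_inf]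
        exact ⟨fun h => ⟨hy, h⟩, fun h => h.2⟩
      rw [e]
      exact (Submodule.comapSubtypeEquivOfLe hle).finrank_eq
    have hr : 0 < Module.finrank ℤ (LinearMap.range f) := by
      have : Nontrivial (LinearMap.range f) := by
        refine ⟨⟨f ⟨v, hv⟩, ⟨_, rfl⟩⟩, 0, fun h => hx ?_⟩
        exact congrArg Subtype.val h
      exact Module.finrank_pos
    obtain ⟨s, hs⟩ := ih (Module.finrank ℤ M') (by omega) M' hfin rfl
    classical
    refine ⟨insert x s, fun w hw hws => hs w ⟨hw, ?_⟩ fun y hy => hws y (Finset.mem_insert_of_mem hy)⟩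
    exact hws x (Finset.mem_insert_self _ _)

variable (𝕜 T) in
lemma exists_detect (h : Module.Finite ℤ (Num 𝕜 T)) :
    ∃ s : Finset T, ∀ E : T, (∀ F ∈ s, eul 𝕜 F E = 0) → ncl 𝕜 E = 0 := by
  let M : Submodule ℤ (T → ℤ) := AddSubgroup.toIntSubmodule (Num 𝕜 T)
  have hM : Module.Finite ℤ M := h
  obtain ⟨s, hs⟩ := exists_detect_aux (Module.finrank ℤ M) M hM rfl
  refine ⟨s, fun E hE => ?_⟩
  apply Subtype.ext
  exact hs (ncl 𝕜 E).1 (ncl 𝕜 E).2 hE

/-- Lower bound for the charges of semistable objects. -/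
theorem exists_lower (h : Module.Finite ℤ (Num 𝕜 T)) (σ : StabCond 𝕜 T) :
    ∃ ε : ℝ, 0 < ε ∧ ∀ (ψ : ℝ) (X : T), σ.P ψ X → ¬ IsZero X → ε ≤ ‖σ.Z (ncl 𝕜 X)‖ := by
  obtain ⟨s, hs⟩ := exists_detect 𝕜 T h
  choose C hC using σ.support
  let M : ℝ := ∑ F ∈ s, |C F| + 1
  have hM : 0 < M := by positivity
  refine ⟨M⁻¹, inv_pos.2 hM, fun ψ X hX hz => ?_⟩
  obtain ⟨m, hm, hZ⟩ := σ.phase ψ X hX hz
  have h0 : σ.Z (ncl 𝕜 X) ≠ 0 := by
    rw [hZ]
    exact mul_ne_zero (by exact_mod_cast hm.ne') (Complex.exp_ne_zero _)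
  have h1 : ¬ ∀ F ∈ s, eul 𝕜 F X = 0 := fun h2 => h0 (by rw [hs X h2, map_zero])
  push Not at h1
  obtain ⟨F, hF, hF0⟩ := h1
  have h2 : (1 : ℝ) ≤ |(eul 𝕜 F X : ℝ)| := by
    have : (1 : ℤ) ≤ |eul 𝕜 F X| := Int.one_le_abs hF0
    exact_mod_cast this
  have h3 := hC F ψ X hX
  have h4 : C F ≤ M := by
    have h5 : |C F| ≤ ∑ F ∈ s, |C F| := Finset.single_le_sum (fun F _ => abs_nonneg (C F)) hF
    have := le_abs_self (C F)
    simp only [M]
    linarith
  have h5 : C F * ‖σ.Z (ncl 𝕜 X)‖ ≤ M * ‖σ.Z (ncl 𝕜 X)‖ :=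
    mul_le_mul_of_nonneg_right h4 (norm_nonneg _)
  rw [inv_le_iff_one_le_mul₀ hM]
  rw [mul_comm]
  linarith

/-- The charge of a stability condition. -/
lemma StabCond.isCharge (hT : ExtFinite 𝕜 T) (σ : StabCond 𝕜 T) :
    IsCharge σ.toSlicing (fun E => σ.Z (ncl 𝕜 E)) := by
  refine ⟨fun Δ hΔ => ?_, fun E F e => ?_, σ.phase⟩
  · rw [← map_add]
    congr 1
    apply Subtype.ext
    funext F
    exact eul_add hT hΔ F
  · congr 1
    apply Subtype.ext
    funext F'
    exact eul_iso_right e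

end Pool.Agent.H934.K
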