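import Mathlib
import Pool.Agent.H934.Norm
import Pool.Agent.H934.K.Numer
set_option autoImplicit false
set_option linter.unusedSectionVars false
set_option linter.unusedVariables false

open CategoryTheory CategoryTheory.Limits CategoryTheory.Pretriangulated ZeroObject

namespace Pool.Agent.H934.K

universe w v u

variable {T : Type u} [Category.{v} T] [Preadditive T] [HasZeroObject T] [HasShift T ℤ]
  [∀ n : ℤ, (shiftFunctor T n).Additive] [Pretriangulated T] [IsTriangulated T]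

variable {𝕜 : Type w} [Field 𝕜] [Linear 𝕜 T] [∀ n : ℤ, (shiftFunctor T n).Linear 𝕜]

/-- Serre duality for vanishing. -/
lemma serre_zero (𝒮 : SerreFunctor 𝕜 T) {E F : T} (h : ∀ g : F ⟶ 𝒮.o E, g = 0) (f : E ⟶ F) :
    f = 0 := by
  apply (𝒮.η E F).injective
  rw [map_zero]
  refine LinearMap.ext fun g => ?_
  rw [h g, map_zero, map_zero]

lemma serre_zero' (𝒮 : SerreFunctor 𝕜 T) {E F : T} (h : ∀ g : E ⟶ F, g = 0) (f : F ⟶ 𝒮.o E) :
    f = 0 := by
  by_contra hf
  obtain ⟨ℓ, hℓ⟩ : ∃ ℓ : Module.Dual 𝕜 (F ⟶ 𝒮.o E), ℓ f ≠ 0 := by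
    by_contra hc
    push Not at hc
    exact hf ((Module.forall_dual_apply_eq_zero_iff 𝕜 f).1 hc)
  apply hℓ
  have h1 := h ((𝒮.η E F).symm ℓ)
  have h2 : ℓ = 0 := by
    rw [← (𝒮.η E F).apply_symm_apply ℓ, h1, map_zero]
  rw [h2]; rfl

/-- The Euler form is nonpositive when the even part vanishes. -/
lemma eul_nonpos (hT : ExtFinite 𝕜 T) {E F : T} (h : ∀ i : ℤ, Even i → ∀ f : E ⟶ F⟦i⟧, f = 0) :
    eul 𝕜 E F ≤ 0 := by
  obtain ⟨N, hN⟩ := hT.bdd E F
  have h1 : eul 𝕜 E F = _ := chi_eq_sum (E := E) (F := F) N hN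
  rw [h1]
  apply Finset.sum_nonpos
  intro i _
  rcases Int.even_or_odd i with hi | hi
  · have : Subsingleton (E ⟶ F⟦i⟧) := ⟨fun a b => by rw [h i hi a, h i hi b]⟩
    rw [Module.finrank_zero_of_subsingleton]; simp
  · rw [Int.negOnePow_odd _ hi]
    simp

/-- A slicing normalised with respect to the numerical data. -/
structure IsNorm {𝒮 : SerreFunctor 𝕜 T} {s : ℝ} (D : NumData 𝒮 s) (σ : Slicing T) : Prop where
  ph : ∀ φ E, σ.P φ E → ¬ IsZero E → ∃ m : ℝ, 0 < m ∧ D.Z E = m * uv φ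
  ser : σ.Shifts 𝒮.S s

namespace NumData

variable {𝒮 : SerreFunctor 𝕜 T} {s : ℝ} (D : NumData 𝒮 s)

/-- The Euler form in terms of phases. -/
lemma chi_uv {X Y : T} {m n x y : ℝ} (hX : D.Z X = m * uv x) (hY : D.Z Y = n * uv y)
    (hcos : Real.cos (Real.pi * s) = 1 / 2) :
    (eul 𝕜 X Y : ℝ) * Real.sin (Real.pi * s) =
      - D.q * (m * n) * Real.sin (Real.pi * (s + (y - x))) := by
  have h1 : (starRingEnd ℂ) (uv x) * uv y = uv (y - x) := by
    have : (starRingEnd ℂ) (uv x) = uv (-x) := by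
      unfold uv
      rw [← Complex.exp_conj]
      congr 1
      simp
    rw [this, ← uv_add]
    congr 1
    ring
  have h2 : (starRingEnd ℂ) (D.Z X) * D.Z Y = ((m * n : ℝ) : ℂ) * uv (y - x) := by
    rw [hX, hY, ← h1, map_mul, Complex.conj_ofReal]
    push_cast
    ring
  rw [D.chi, h2, Complex.re_ofReal_mul, Complex.im_ofReal_mul, uv_re, uv_im]
  have h3 := D.hκ
  rw [uv_im] at h3
  rw [show Real.pi * (s + (y - x)) = Real.pi * s + Real.pi * (y - x) by ring, Real.sin_add, hcos]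
  linear_combination (- D.q * (m * n) * Real.sin (Real.pi * (y - x))) * h3

end NumData

end Pool.Agent.H934.K
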