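import Mathlib
import Pool.Agent.H934.Norm2
import Pool.Agent.H934.K.Norm
set_option autoImplicit false
set_option linter.unusedSectionVars false
set_option linter.unusedVariables false

open CategoryTheory CategoryTheory.Limits CategoryTheory.Pretriangulated ZeroObject

namespace Pool.Agent.H934.K

universe w v u

variable {T : Type u} [Category.{v} T] [Preadditive T] [HasZeroObject T] [HasShift T ℤ]
  [∀ n : ℤ, (shiftFunctor T n).Additive] [Pretriangulated T] [IsTriangulated T]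

variable {𝕜 : Type w} [Field 𝕜] [Linear 𝕜 T] [∀ n : ℤ, (shiftFunctor T n).Linear 𝕜]

namespace NumData

variable {𝒮 : SerreFunctor 𝕜 T} {s : ℝ} (D : NumData 𝒮 s)

lemma Z_zero {E : T} (h : IsZero E) : D.Z E = 0 := by
  have h1 := D.add _ (contractible_distinguished E)
  have h2 : D.Z E = D.Z E + D.Z (0 : T) := h1
  have h3 : D.Z E = D.Z (0 : T) := D.iso _ _ (h.iso (isZero_zero T))
  rw [← h3] at h2
  have : D.Z E + D.Z E - D.Z E = 0 := by rw [← h2]; ring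
  linear_combination this

/-- The class of an object with phases in a short interval. -/
lemma sector {σ : Slicing T} (N : IsNorm D σ) {a b : ℝ} (hab : b - a < 1) {E : T}
    (h1 : σ.Ge a E) (h2 : σ.Le b E) (hz : ¬ IsZero E) :
    ∃ (m x : ℝ), 0 < m ∧ a ≤ x ∧ x ≤ b ∧ D.Z E = m * uv x := by
  have key : IsZero E ∨ ∃ (m x : ℝ), 0 < m ∧ a ≤ x ∧ x ≤ b ∧ D.Z E = m * uv x := by
    refine σ.ind (E := E) (p := fun X => IsZero X ∨
      ∃ (m x : ℝ), 0 < m ∧ a ≤ x ∧ x ≤ b ∧ D.Z X = m * uv x)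
      (fun Z hZ => Or.inl hZ) (fun X Y e h => ?_) (fun Δ hΔ h1 h3 => ?_)
      (fun ψ X hX hX0 hge _ hle _ => ?_)
    · rcases h with h | ⟨m, x, hm, hx1, hx2, hx⟩
      · exact Or.inl (h.of_iso e.symm)
      · exact Or.inr ⟨m, x, hm, hx1, hx2, (D.iso _ _ e).symm.trans hx⟩
    · rcases h1 with h1 | ⟨m, x, hm, hx1, hx2, hx⟩
      · have : IsIso Δ.mor₂ := (Triangle.isZero₁_iff_isIso₂ _ hΔ).1 h1
        rcases h3 with h3 | ⟨m, x, hm, hx1, hx2, hx⟩
        · exact Or.inl (h3.of_iso (asIso Δ.mor₂))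
        · exact Or.inr ⟨m, x, hm, hx1, hx2, (D.iso _ _ (asIso Δ.mor₂)).trans hx⟩
      · rcases h3 with h3 | ⟨n, y, hn, hy1, hy2, hy⟩
        · refine Or.inr ⟨m, x, hm, hx1, hx2, ?_⟩
          rw [D.add Δ hΔ, D.Z_zero h3, add_zero, hx]
        · obtain ⟨l, z, hl, hz1, hz2, hz⟩ := sum_uv hab hm hn hx1 hx2 hy1 hy2
          refine Or.inr ⟨l, z, hl, hz1, hz2, ?_⟩
          rw [D.add Δ hΔ, hx, hy, hz]
    · obtain ⟨m, hm, hx⟩ := N.ph ψ X hX hX0
      exact Or.inr ⟨m, ψ, hm, hge a h1, hle b h2, hx⟩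
  rcases key with h | h
  · exact absurd h hz
  · exact h

/-- Nonvanishing of morphisms between semistable objects. -/
lemma exists_hom {σ : Slicing T} (N : IsNorm D σ) (hT : ExtFinite 𝕜 T)
    (hcos : Real.cos (Real.pi * s) = 1 / 2) {a b : ℝ} {X Y : T} (hX : σ.P a X) (hY : σ.P b Y)
    (hX0 : ¬ IsZero X) (hY0 : ¬ IsZero Y) (h1 : b - a ≤ 1) (h2 : s - (b - a) < 2)
    (hsin : Real.sin (Real.pi * (s + (b - a))) * Real.sin (Real.pi * s) < 0) :
    ∃ f : X ⟶ Y, f ≠ 0 := by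
  by_contra hc
  push Not at hc
  have h3 : eul 𝕜 X Y ≤ 0 := by
    refine eul_nonpos hT (fun i hi f => ?_)
    have hYi := Slicing.P_shift hY i
    rcases lt_trichotomy i 0 with h | h | h
    · have hi2 : i ≤ -2 := by
        obtain ⟨t, rfl⟩ := hi; omega
      have hi3 : (i : ℝ) ≤ -2 := by exact_mod_cast hi2
      exact σ.hom a (b + i) X _ (by linarith) hX hYi f
    · subst h
      have h4 := hc (f ≫ ((shiftFunctorZero T ℤ).app Y).hom)
      rw [← cancel_mono ((shiftFunctorZero T ℤ).app Y).hom, h4, zero_comp]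
    · have hi2 : 2 ≤ i := by
        obtain ⟨t, rfl⟩ := hi; omega
      have hi3 : (2 : ℝ) ≤ i := by exact_mod_cast hi2
      exact serre_zero 𝒮 (fun g => σ.hom (b + i) (a + s) _ _ (by linarith) hYi
        ((N.ser a X).1 hX) g) f
  obtain ⟨m, hm, hZX⟩ := N.ph a X hX hX0
  obtain ⟨n, hn, hZY⟩ := N.ph b Y hY hY0
  have h4 := D.chi_uv hZX hZY hcos
  have h5 : (eul 𝕜 X Y : ℝ) ≤ 0 := by exact_mod_cast h3
  have h6 : (eul 𝕜 X Y : ℝ) * (Real.sin (Real.pi * s) * Real.sin (Real.pi * s)) =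
      - D.q * (m * n) * (Real.sin (Real.pi * (s + (b - a))) * Real.sin (Real.pi * s)) := by
    linear_combination Real.sin (Real.pi * s) * h4
  have h7 : 0 < D.q * (m * n) := mul_pos D.hq (mul_pos hm hn)
  have h8 : (eul 𝕜 X Y : ℝ) * (Real.sin (Real.pi * s) * Real.sin (Real.pi * s)) ≤ 0 :=
    mul_nonpos_of_nonpos_of_nonneg h5 (mul_self_nonneg _)
  nlinarith

end NumData

/-- Autoequivalences raising phases by thirds of integers. -/
lemma exists_rot {𝒮 : SerreFunctor 𝕜 T} {s : ℝ} (D : NumData 𝒮 s) {k : ℤ} (hs : 3 * s = k)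
    (hk3 : ¬ (3 : ℤ) ∣ k) (j : ℤ) :
    ∃ Φ : T ≌ T, ∀ σ : Slicing T, IsNorm D σ → σ.Shifts Φ ((j : ℝ) / 3) := by
  have pow : ∀ a : ℕ, ∃ Φ : T ≌ T, ∀ σ : Slicing T, IsNorm D σ → σ.Shifts Φ (s * a) := by
    intro a
    induction a with
    | zero => exact ⟨CategoryTheory.Equivalence.refl, fun σ _ => by
        have := Slicing.Shifts.refl (σ := σ)
        simpa using this⟩
    | succ a ih =>
      obtain ⟨Φ, hΦ⟩ := ih
      refine ⟨Φ.trans 𝒮.S, fun σ N => ?_⟩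
      have := (hΦ σ N).trans N.ser
      have e : s * ((a + 1 : ℕ) : ℝ) = s * a + s := by push_cast; ring
      rw [e]
      exact this
  obtain ⟨a, b, hab⟩ : ∃ (a : ℕ) (b : ℤ), k * a + 3 * b = j := by
    obtain ⟨t, ht⟩ : ∃ t : ℤ, k = 3 * t + 1 ∨ k = 3 * t + 2 := ⟨k / 3, by omega⟩
    obtain ⟨u, v, hv0, hv⟩ : ∃ (u v : ℤ), 0 ≤ v ∧ j = 3 * u + v := ⟨j / 3, j % 3, by omega, by omega⟩
    lift v to ℕ using hv0
    rcases ht with ht | ht
    · exact ⟨v, u - t * v, by rw [ht, hv]; ring⟩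
    · exact ⟨2 * v, u - v - 2 * t * v, by rw [ht, hv]; push_cast; ring⟩
  obtain ⟨Φ, hΦ⟩ := pow a
  refine ⟨Φ.trans (shiftEquiv T b), fun σ N => ?_⟩
  have h1 := (hΦ σ N).trans (Slicing.Shifts.shift (σ := σ) b)
  have e : (j : ℝ) / 3 = s * a + b := by
    rw [← hab]; push_cast; rw [← hs]; ring
  rw [e]
  exact h1

end Pool.Agent.H934.K
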