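import Mathlib
import Pool.Agent.H934.K.Norm2
set_option autoImplicit false
set_option linter.unusedSectionVars false
set_option linter.unusedVariables false

open CategoryTheory CategoryTheory.Limits CategoryTheory.Pretriangulated ZeroObject

namespace Pool.Agent.H934.K

universe w v u

variable {𝕜 : Type w} [Field 𝕜] {T : Type u} [Category.{v} T] [Preadditive T] [HasZeroObject T] [HasShift T ℤ]
  [∀ n : ℤ, (shiftFunctor T n).Additive] [Pretriangulated T] [IsTriangulated T] [Linear 𝕜 T]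
  [∀ n : ℤ, (shiftFunctor T n).Linear 𝕜]

variable {𝒮 : SerreFunctor 𝕜 T} {s : ℝ} (D : NumData 𝒮 s)

omit [IsTriangulated T] [Linear 𝕜 T] [∀ n : ℤ, (shiftFunctor T n).Linear 𝕜] in
lemma isZero_of_obj {Φ : T ≌ T} {C : T} (h0 : IsZero (Φ.functor.obj C)) : IsZero C := by
  rw [IsZero.iff_id_eq_zero] at h0 ⊢
  apply Φ.functor.map_injective
  rw [CategoryTheory.Functor.map_id, h0, Functor.map_zero]

/-- The nonvanishing property used in the comparison of slicings. -/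
def NV (D : NumData 𝒮 s) : Prop :=
  ∀ σ : Slicing T, IsNorm D σ → ∀ (a b : ℝ) (X Y : T), σ.P a X → σ.P b Y → ¬ IsZero X →
    ¬ IsZero Y → 2 / 3 < b - a → b - a ≤ 1 → ∃ f : X ⟶ Y, f ≠ 0

/-- If all twisted morphisms vanish up to `J / 3` then the phase gap is small. -/
lemma gap_le (hNV : NV D) {k : ℤ} (hs : 3 * s = k) (hk3 : ¬ (3 : ℤ) ∣ k) {σ : Slicing T}
    (N : IsNorm D σ) {A B : T} {m p : ℝ} (hA : σ.IsMin m A) (hB : σ.IsMax p B) (J : ℤ)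
    (hvan : ∀ j : ℤ, j ≤ J → ∀ Φ : T ≌ T, (∀ σ : Slicing T, IsNorm D σ → σ.Shifts Φ ((j : ℝ) / 3)) →
      ∀ f : A ⟶ Φ.functor.obj B, f = 0) : p - m + (J : ℝ) / 3 ≤ 2 / 3 := by
  by_contra hc
  push Not at hc
  set j : ℤ := ⌊3 * (1 - (p - m))⌋ with hj
  have hj1 : (j : ℝ) ≤ 3 * (1 - (p - m)) := Int.floor_le _
  have hj2 : 3 * (1 - (p - m)) < (j : ℝ) + 1 := Int.lt_floor_add_one _
  have hjJ : j ≤ J := by
    by_contra h1
    push Not at h1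
    have h2 : (J : ℝ) + 1 ≤ j := by exact_mod_cast h1
    linarith
  obtain ⟨Φ, hΦ⟩ := exists_rot D hs hk3 j
  obtain ⟨A', D', a, d, c, ht, hD, hDz, hA'⟩ := hA
  obtain ⟨C, B', i, b, e, ht', hC, hCz, hB'⟩ := hB
  have hΦC : σ.P (p + (j : ℝ) / 3) (Φ.functor.obj C) := (hΦ σ N p C).1 hC
  have hΦCz : ¬ IsZero (Φ.functor.obj C) := fun h0 => hCz (isZero_of_obj h0)
  obtain ⟨f, hf⟩ := hNV σ N m (p + (j : ℝ) / 3) D' _ hD hΦC hDz hΦCz (by linarith) (by linarith)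
  obtain ⟨h, hh⟩ := Slicing.exists_ne_zero (hΦ σ N) ht hA' ht' hC hB' hD (by linarith) f hf
  exact hh (hvan j hjJ Φ hΦ h)

/-- The phases of two normalised slicings with respect to which an object is semistable differ by
an even integer. -/
lemma phase_mod {σ₁ σ₂ : Slicing T} (N₁ : IsNorm D σ₁) (N₂ : IsNorm D σ₂) {φ ψ : ℝ} {E : T}
    (h1 : σ₁.P φ E) (h2 : σ₂.P ψ E) (hz : ¬ IsZero E) : ∃ i : ℤ, ψ = φ + 2 * i := by
  obtain ⟨m, hm, hm'⟩ := N₁.ph _ _ h1 hz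
  obtain ⟨n, hn, hn'⟩ := N₂.ph _ _ h2 hz
  rw [hm'] at hn'
  obtain ⟨-, i, hi⟩ := uv_inj hn hm hn'.symm
  exact ⟨i, hi⟩

/-- Semistable objects of one normalised slicing are semistable for any other one. -/
theorem semistable_of_semistable (hNV : NV D) {k : ℤ} (hs : 3 * s = k) (hk3 : ¬ (3 : ℤ) ∣ k)
    {σ₁ σ₂ : Slicing T} (N₁ : IsNorm D σ₁) (N₂ : IsNorm D σ₂) {φ : ℝ} {E : T} (hE : σ₁.P φ E)
    (hz : ¬ IsZero E) : ∃ i : ℤ, σ₂.P (φ + 2 * i) E := by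
  obtain ⟨ψ₁, A, B, a, b, c, ht, hA, hAz, hB⟩ := σ₂.exists_max hz
  obtain ⟨ψ₂, A', B', a', b', c', ht', hB', hBz', hA'⟩ := σ₂.exists_min hz
  have hle : σ₂.Le ψ₁ E := Slicing.Le.ext ht (Slicing.le_of_P hA) hB.le
  have hge : σ₂.Ge ψ₂ E := Slicing.Ge.ext ht' hA'.ge (Slicing.ge_of_P hB')
  rcases le_or_gt ψ₁ ψ₂ with hψ | hψ
  · have h1 : σ₂.P ψ₂ E := Slicing.P_of_ge_le hge (hle.mono hψ)
    obtain ⟨i, hi⟩ := phase_mod D N₁ N₂ hE h1 hz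
    exact ⟨i, by rw [← hi]; exact h1⟩
  exfalso
  have hBz : ¬ IsZero B := by
    intro h0
    have h1 : σ₂.Ge ψ₁ E := Slicing.Ge.ext ht (Slicing.ge_of_P hA) (Slicing.ge_of_isZero h0)
    have := h1.min_le ht' hB' hBz' hA'
    linarith
  have hAz' : ¬ IsZero A' := by
    intro h0
    have h1 : σ₂.Le ψ₂ E := Slicing.Le.ext ht' (Slicing.le_of_isZero h0) (Slicing.le_of_P hB')
    have := h1.le_max ht hA hAz hB
    linarith
  obtain ⟨αm, hαm⟩ := σ₁.exists_isMin hAz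
  obtain ⟨αp, hαp⟩ := σ₁.exists_isMax hAz
  obtain ⟨βp, hβp⟩ := σ₁.exists_isMax hBz
  obtain ⟨α'm, hα'm⟩ := σ₁.exists_isMin hAz'
  obtain ⟨β'm, hβ'm⟩ := σ₁.exists_isMin hBz'
  obtain ⟨β'p, hβ'p⟩ := σ₁.exists_isMax hBz'
  have hα : αm ≤ αp := hαm.le_isMax hαp
  have hβ' : β'm ≤ β'p := hβ'm.le_isMax hβ'p
  -- first gap
  have g1 : βp - αm + ((0 : ℤ) : ℝ) / 3 ≤ 2 / 3 := by
    refine gap_le D hNV hs hk3 N₁ hαm hβp 0 (fun j hj Φ hΦ f => ?_)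
    have hj' : (j : ℝ) ≤ 0 := by exact_mod_cast hj
    exact Slicing.hom_zero_ge_lt (Slicing.ge_of_P hA)
      ((Slicing.Lt.map (hΦ σ₂ N₂) hB).mono (by linarith)) f
  have g2 : β'p - α'm + ((0 : ℤ) : ℝ) / 3 ≤ 2 / 3 := by
    refine gap_le D hNV hs hk3 N₁ hα'm hβ'p 0 (fun j hj Φ hΦ f => ?_)
    have hj' : (j : ℝ) ≤ 0 := by exact_mod_cast hj
    exact Slicing.hom_zero_gt_le hA'
      ((Slicing.Le.map (hΦ σ₂ N₂) (Slicing.le_of_P hB')).mono (by linarith)) f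
  have g3 : β'p - αm + ((0 : ℤ) : ℝ) / 3 ≤ 2 / 3 := by
    refine gap_le D hNV hs hk3 N₁ hαm hβ'p 0 (fun j hj Φ hΦ f => ?_)
    have hj' : (j : ℝ) ≤ 0 := by exact_mod_cast hj
    exact Slicing.hom_zero (σ := σ₂) (s := ψ₂ + (j : ℝ) / 3) (t := ψ₁) (by linarith)
      (Slicing.ge_of_P hA) (Slicing.Le.map (hΦ σ₂ N₂) (Slicing.le_of_P hB')) f
  simp only [Int.cast_zero, zero_div, add_zero] at g1 g2 g3
  have hαφ : αp ≤ φ := Slicing.isMax_le_of_tri ht (Slicing.le_of_P hE) hαp hβp.le (by linarith)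
  have hβφ : φ ≤ β'm := Slicing.isMin_ge_of_tri ht' (Slicing.ge_of_P hE) hβ'm hα'm.ge (by linarith)
  obtain ⟨m, x, hm, hx1, hx2, hx⟩ := D.sector N₁ (show αp - αm < 1 by linarith) hαm.ge hαp.le hAz
  obtain ⟨n, y, hn, hy1, hy2, hy⟩ := D.sector N₁ (show β'p - β'm < 1 by linarith) hβ'm.ge
    hβ'p.le hBz'
  obtain ⟨m', hm', hx'⟩ := N₂.ph _ _ hA hAz
  obtain ⟨n', hn', hy'⟩ := N₂.ph _ _ hB' hBz'
  rw [hx] at hx'
  rw [hy] at hy'
  obtain ⟨-, i, hi⟩ := uv_inj hm' hm hx'.symm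
  obtain ⟨-, j, hj⟩ := uv_inj hn' hn hy'.symm
  have hij : 1 ≤ i - j := by
    have h1 : (0 : ℝ) < ((i - j : ℤ) : ℝ) := by push_cast; linarith
    have h2 : 0 < i - j := by exact_mod_cast h1
    omega
  have hij' : (1 : ℝ) ≤ ((i - j : ℤ) : ℝ) := by exact_mod_cast hij
  push_cast at hij'
  have g4 : β'p - αm + ((3 : ℤ) : ℝ) / 3 ≤ 2 / 3 := by
    refine gap_le D hNV hs hk3 N₁ hαm hβ'p 3 (fun j' hj Φ hΦ f => ?_)
    have hj' : (j' : ℝ) ≤ 3 := by exact_mod_cast hj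
    exact Slicing.hom_zero (σ := σ₂) (s := ψ₂ + (j' : ℝ) / 3) (t := ψ₁) (by linarith)
      (Slicing.ge_of_P hA) (Slicing.Le.map (hΦ σ₂ N₂) (Slicing.le_of_P hB')) f
  push_cast at g4
  linarith

/-- **Uniqueness.** Two normalised slicings differ by an even integer translation. -/
theorem norm_unique (hNV : NV D) {k : ℤ} (hs : 3 * s = k) (hk3 : ¬ (3 : ℤ) ∣ k)
    {σ₁ σ₂ : Slicing T} (N₁ : IsNorm D σ₁) (N₂ : IsNorm D σ₂) {X : T} (hX : ¬ IsZero X) :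
    ∃ i : ℤ, ∀ (φ : ℝ) (E : T), σ₁.P φ E ↔ σ₂.P (φ + 2 * i) E := by
  have cmp : ∀ {φ φ' : ℝ} {E F : T} {i j : ℤ}, σ₁.P φ E → σ₁.P φ' F → ¬ IsZero E → ¬ IsZero F →
      σ₂.P (φ + 2 * i) E → σ₂.P (φ' + 2 * j) F → i ≤ j := by
    intro φ φ' E F i j h1 h2 hE hF h3 h4
    set n : ℤ := ⌊3 * (1 - (φ' - φ))⌋ with hn
    have hn1 : (n : ℝ) ≤ 3 * (1 - (φ' - φ)) := Int.floor_le _
    have hn2 : 3 * (1 - (φ' - φ)) < (n : ℝ) + 1 := Int.lt_floor_add_one _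
    obtain ⟨Φ, hΦ⟩ := exists_rot D hs hk3 n
    have h5 := (hΦ σ₁ N₁ _ _).1 h2
    have h6 := (hΦ σ₂ N₂ _ _).1 h4
    have hΦz : ¬ IsZero (Φ.functor.obj F) := fun h0 => hF (isZero_of_obj h0)
    obtain ⟨f, hf⟩ := hNV σ₁ N₁ _ _ _ _ h1 h5 hE hΦz (by linarith) (by linarith)
    by_contra hc
    push Not at hc
    have h7 : (j : ℝ) + 1 ≤ i := by exact_mod_cast hc
    exact hf (σ₂.hom _ _ _ _ (by linarith) h3 h6 f)
  obtain ⟨ρ, C, B, a, b, c, ht, hC, hCz, hB⟩ := σ₁.exists_max hX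
  obtain ⟨i, hi⟩ := semistable_of_semistable D hNV hs hk3 N₁ N₂ hC hCz
  have fwd : ∀ (φ : ℝ) (E : T), σ₁.P φ E → σ₂.P (φ + 2 * i) E := by
    intro φ E hE
    by_cases hz : IsZero E
    · exact σ₂.zero _ _ hz
    obtain ⟨j, hj⟩ := semistable_of_semistable D hNV hs hk3 N₁ N₂ hE hz
    have h1 := cmp hE hC hz hCz hj hi
    have h2 := cmp hC hE hCz hz hi hj
    have : j = i := le_antisymm h1 h2
    rw [← this]; exact hj
  refine ⟨i, fun φ E => ⟨fwd φ E, fun hE => ?_⟩⟩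
  apply Slicing.P_of_ge_le
  · intro ψ hψ Y hY f
    exact σ₂.hom _ _ _ _ (by linarith) hE (fwd ψ Y hY) f
  · intro ψ hψ Y hY f
    exact σ₂.hom _ _ _ _ (by linarith) (fwd ψ Y hY) hE f

end Pool.Agent.H934.K
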