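import Mathlib
import Pool.Agent.H934.K.Dich
import Pool.Agent.H934.Simple
set_option autoImplicit false
set_option linter.unusedSectionVars false
set_option linter.unusedVariables false

open CategoryTheory CategoryTheory.Limits CategoryTheory.Pretriangulated ZeroObject

namespace Pool.Agent.H934.K

universe w v u

variable {𝕜 : Type w} [Field 𝕜] {T : Type u} [Category.{v} T] [Preadditive T] [HasZeroObject T] [HasShift T ℤ]
  [∀ n : ℤ, (shiftFunctor T n).Additive] [Pretriangulated T] [IsTriangulated T] [Linear 𝕜 T]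
  [∀ n : ℤ, (shiftFunctor T n).Linear 𝕜]

variable {𝒮 : SerreFunctor 𝕜 T}

open Pool.Agent.H934.Slicing

lemma IsNorm.charge {s : ℝ} {D : NumData 𝒮 s} {σ : Slicing T} (N : IsNorm D σ) :
    IsCharge σ D.Z := ⟨D.add, D.iso, N.ph⟩

/-- Nonzero classes have norm at least one. -/
lemma one_le_norm {s : ℝ} (D : NumData 𝒮 s) (hq : D.q = 1) {X : T} (hX : D.Z X ≠ 0) :
    1 ≤ ‖D.Z X‖ := by
  have h1 := D.chi X X
  rw [hq, ← Complex.normSq_eq_conj_mul_self] at h1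
  simp only [Complex.ofReal_re, Complex.ofReal_im, mul_zero, add_zero] at h1
  have h2 : 0 < Complex.normSq (D.Z X) := Complex.normSq_pos.2 hX
  have h3 : (eul 𝕜 X X : ℝ) < 0 := by rw [h1]; linarith
  have h4 : eul 𝕜 X X < 0 := by exact_mod_cast h3
  have h5 : eul 𝕜 X X ≤ -1 := by omega
  have h6 : (eul 𝕜 X X : ℝ) ≤ -1 := by exact_mod_cast h5
  have h7 : 1 ≤ Complex.normSq (D.Z X) := by linarith
  rw [Complex.normSq_eq_norm_sq] at h7
  nlinarith [norm_nonneg (D.Z X)]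

lemma norm_uv (φ : ℝ) : ‖uv φ‖ = 1 := by
  unfold uv
  have : ((Real.pi : ℂ) * (φ : ℂ)) = ((Real.pi * φ : ℝ) : ℂ) := by push_cast; rfl
  rw [this, Complex.norm_exp_ofReal_mul_I]

section

variable (hT : ExtFinite 𝕜 T) (D : NumData 𝒮 (5 / 3)) (hq : D.q = 1) {σ : Slicing T}
  (N : IsNorm D σ) {τ : Slicing T} {W : T → ℂ} (hW : IsCharge τ W) {L : ℂ →ₗ[ℝ] ℂ}
  (hL : ∀ X : T, W X = L (D.Z X))

include hT hq N hW hL

/-- **Unit objects are semistable for every stability condition.** -/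
theorem semistable_unit {φ : ℝ} {E : T} (hE : σ.P φ E) (hZE : D.Z E = uv φ) : ∃ ψ, τ.P ψ E := by
  have hWZ : ∀ X : T, W X ≠ 0 → D.Z X ≠ 0 := fun X h h0 => h (by rw [hL, h0, map_zero])
  have hEz : ¬ IsZero E := by
    intro h0
    rw [D.Z_zero h0] at hZE
    exact uv_ne_zero φ hZE.symm
  obtain ⟨ψ, A, B, a, b, c, ht, hA, hAz, hB⟩ := τ.exists_max hEz
  by_cases hBz : IsZero B
  · have : IsIso a := (Triangle.isZero₃_iff_isIso₁ _ ht).1 hBz
    exact ⟨ψ, τ.iso _ _ _ ⟨asIso a⟩ hA⟩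
  exfalso
  have hAB : ∀ i : ℤ, i ≤ 0 → ∀ f : A ⟶ B⟦i⟧, f = 0 := by
    intro i hi f
    have hi' : (i : ℝ) ≤ 0 := by exact_mod_cast hi
    exact hom_zero_ge_lt (ge_of_P hA) ((hB.shift i).mono (by linarith)) f
  have hAB0 : ∀ f : A ⟶ B, f = 0 := fun f => hom_zero_ge_lt (ge_of_P hA) hB f
  have hAZ : D.Z A ≠ 0 := hWZ A (hW.ne_zero hA hAz)
  have hadd : D.Z E = D.Z A + D.Z B := D.add _ ht
  have hAE : D.Z A = D.Z E := by
    rcases dichotomy hT D hq N ht hAB hE hZE with h | h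
    · exact absurd h hAZ
    · exact h
  have hBZ : D.Z B = 0 := by
    rw [hAE] at hadd
    linear_combination (-1 : ℂ) * hadd
  have hC := N.charge
  have hBge := ge_of_tri hT D N ht hAB0 hE
  have hBle := le_of_tri' hT D N ht hAB0 hE
  have hAge := ge_of_tri' hT D N ht hAB0 hE
  have hAle := le_of_tri hT D N ht hAB0 hE
  -- truncation of `B`
  obtain ⟨B₁, B₂, b₁, b₂, b₃, htB, hB₁, hB₂⟩ := σ.exists_trunc φ B
  have hB₂P : σ.P φ B₂ := P_of_ge_le (ge_quot htB hBge (hB₁.ge.mono (by linarith))) hB₂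
  have hB₁le : σ.Le (φ + 1) B₁ := le_sub htB hBle (hB₂.mono (by linarith))
  have hB₂z : ¬ IsZero B₂ := by
    intro h0
    have : IsIso b₁ := (Triangle.isZero₃_iff_isIso₁ _ htB).1 h0
    obtain ⟨m, x, hm, -, -, hx⟩ := hC.half_open (hB₁.iso (asIso b₁)) hBle hBz
    rw [hBZ] at hx
    exact mul_ne_zero (by exact_mod_cast hm.ne') (uv_ne_zero _) hx.symm
  -- truncation of `A`
  obtain ⟨A₁, A₂, a₁, a₂, a₃, htA, hA₁, hA₂⟩ := σ.exists_trunc (φ - 1) A
  have hA₂P : σ.P (φ - 1) A₂ := P_of_ge_le (ge_quot htA hAge (hA₁.ge.mono (by linarith))) hA₂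
  have hA₂z : IsZero A₂ := by
    by_contra hA₂z
    obtain ⟨e, he⟩ := nv_5' hT D N hA₂P hB₂P hA₂z hB₂z (by linarith) (by linarith)
    obtain ⟨e', he'⟩ := Slicing.lift htB e (fun g => serre_zero 𝒮 (fun h => by
      have h5 : σ.P (φ - 1 + 5 / 3) (𝒮.o A₂) := (N.ser _ _).1 hA₂P
      exact hB₁.shift1 _ (by linarith) _ h5 h) g)
    have h3 : a₂ ≫ e = 0 := by
      rw [← he', ← Category.assoc, hAB0 (a₂ ≫ e'), zero_comp]
    obtain ⟨g, hg⟩ := desc₃ htA e h3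
    have h4 : σ.Gt (φ - 1 + 1) (A₁⟦(1 : ℤ)⟧) := hA₁.shift1
    have hg0 : g = 0 := h4 φ (by linarith) B₂ hB₂P g
    apply he
    rw [← hg, hg0, comp_zero]
  have hAgt : σ.Gt (φ - 1) A := by
    have : IsIso a₁ := (Triangle.isZero₃_iff_isIso₁ _ htA).1 hA₂z
    exact hA₁.iso (asIso a₁)
  -- the cone of `E ⟶ B ⟶ B₂`
  obtain ⟨Q, p', q', r, s, w, k1, k2, k3, k4⟩ :=
    octa (rot_of_distTriang _ ht) (rot_of_distTriang _ htB)
  have hA1 : σ.Gt φ (A⟦(1 : ℤ)⟧) := by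
    have := hAgt.shift1
    rwa [sub_add_cancel] at this
  have hQgt : σ.Gt φ Q := Gt.ext k2 hA1 (hB₁.shift1.mono (by linarith))
  have hE1 : σ.P (φ + 1) (E⟦(1 : ℤ)⟧) := (σ.shift _ _).2 hE
  have hQle : σ.Le (φ + 1) Q := Le.ext (rot_of_distTriang _ k1)
    ((le_of_P hB₂P).mono (by linarith)) (le_of_P hE1)
  have hZQ : D.Z B₂ = D.Z E + D.Z Q := D.add _ k1
  obtain ⟨m, hm, hmZ⟩ := N.ph _ _ hB₂P hB₂z
  have hm1 : 1 ≤ m := by
    have h1 := one_le_norm D hq (hC.ne_zero hB₂P hB₂z)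
    rw [hmZ, norm_mul, norm_uv, mul_one, Complex.norm_of_nonneg hm.le] at h1
    exact h1
  have hQz : IsZero Q := by
    by_contra hQz
    obtain ⟨l, z, hl, hz1, hz2, hz⟩ := hC.half_open hQgt hQle hQz
    have h1 : ((m - 1 : ℝ) : ℂ) * uv φ = l * uv z := by
      rw [← hz]
      push_cast
      rw [sub_mul, one_mul, ← hmZ, ← hZE, hZQ]; ring
    rcases hm1.eq_or_lt with h2 | h2
    · rw [← h2, sub_self] at h1
      simp only [Complex.ofReal_zero, zero_mul] at h1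
      exact mul_ne_zero (by exact_mod_cast hl.ne') (uv_ne_zero _) h1.symm
    · obtain ⟨-, k, hk⟩ := uv_inj (by linarith) hl h1
      have h3 : (-1 : ℝ) ≤ ((2 * k : ℤ) : ℝ) := by push_cast; linarith
      have h4 : ((2 * k : ℤ) : ℝ) < 0 := by push_cast; linarith
      have h5 : -1 ≤ 2 * k := by exact_mod_cast h3
      have h6 : 2 * k < 0 := by exact_mod_cast h4
      omega
  have hiso : IsIso (b ≫ b₂) := (Triangle.isZero₃_iff_isIso₁ _ k1).1 hQz
  have ha : a ≠ 0 := mor₁_ne_zero ht hAz (fun g => hB.shiftm1 ψ (by linarith) A hA g)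
  apply ha
  rw [← cancel_mono (b ≫ b₂)]
  have h5 : a ≫ b = 0 := comp_distTriang_mor_zero₁₂ _ ht
  rw [← Category.assoc, h5, zero_comp, zero_comp]

/-- **Unit objects are stable for every stability condition.** -/
theorem stable_unit {ε : ℝ} (hε0 : 0 < ε)
    (hε : ∀ (ψ : ℝ) (X : T), τ.P ψ X → ¬ IsZero X → ε ≤ ‖W X‖) {φ ψ : ℝ} {E : T}
    (hE : σ.P φ E) (hZE : D.Z E = uv φ) (hE' : τ.P ψ E) : τ.Simp ψ E := by
  have hWZ : ∀ X : T, W X ≠ 0 → D.Z X ≠ 0 := fun X h h0 => h (by rw [hL, h0, map_zero])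
  have hWB : ∀ X : T, D.Z X = 0 → τ.P ψ X → IsZero X := by
    intro X h0 hX
    by_contra hz
    exact hWZ X (hW.ne_zero hX hz) h0
  have hEz : ¬ IsZero E := by
    intro h0
    rw [D.Z_zero h0] at hZE
    exact uv_ne_zero φ hZE.symm
  obtain ⟨n, hn⟩ := exists_nat_gt (‖W E‖ / ε)
  rw [div_lt_iff₀ hε0] at hn
  obtain ⟨C, B₀, ht₀, hC, hB₀⟩ := hW.exists_simp hε0 hε n E hE' hEz hn
  obtain ⟨n, A, B, a, b, c, ht, hA, hB, hAz, hVA, hn1, hfil, hCB⟩ :=
    hW.exists_filt hε0 hε N.charge hC ht₀ hB₀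
  have hAB : ∀ i : ℤ, i ≤ 0 → ∀ f : A ⟶ B⟦i⟧, f = 0 := by
    intro i hi f
    rcases hi.eq_or_lt with h | h
    · subst h
      have h1 := hfil B hCB (f ≫ ((shiftFunctorZero T ℤ).app B).hom)
      rw [← cancel_mono ((shiftFunctorZero T ℤ).app B).hom, h1, zero_comp]
    · have hi' : (i : ℝ) < 0 := by exact_mod_cast h
      exact τ.hom ψ (ψ + i) _ _ (by linarith) hA (P_shift hB i) f
  have hAZ : D.Z A ≠ 0 := hWZ A (hW.ne_zero hA hAz)
  have hAE : D.Z A = D.Z E := by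
    rcases dichotomy hT D hq N ht hAB hE hZE with h | h
    · exact absurd h hAZ
    · exact h
  -- the number of factors is one
  have hCZ : D.Z C ≠ 0 := hWZ C (hW.ne_zero hC.1 hC.2.1)
  have h1 := one_le_norm D hq hCZ
  have h2 : (n : ℝ) * ‖D.Z C‖ = 1 := by
    have := congrArg norm hVA
    rw [hAE, hZE, norm_uv, norm_mul, Complex.norm_natCast] at this
    exact this.symm
  have hn2 : n = 1 := by
    have h3 : (n : ℝ) ≤ 1 := by
      by_contra hc
      push Not at hc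
      nlinarith
    have h4 : n ≤ 1 := by exact_mod_cast h3
    omega
  have hCE : D.Z C = D.Z E := by
    rw [← hAE, hVA, hn2]; simp
  obtain ⟨x, y, z, htx⟩ := ht₀
  have h3 : D.Z E = D.Z C + D.Z B₀ := D.add _ htx
  have h4 : D.Z B₀ = 0 := by rw [hCE] at h3; linear_combination (-1 : ℂ) * h3
  have h5 := hWB B₀ h4 hB₀
  have : IsIso x := (Triangle.isZero₃_iff_isIso₁ _ htx).1 h5
  exact hC.iso (asIso x)

end

/-- Nonzero morphisms between simple objects of the same phase are isomorphisms. -/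
theorem Slicing.Simp.iso_of_ne_zero {τ : Slicing T} {W : T → ℂ} (hW : IsCharge τ W) {ψ : ℝ}
    {X Y : T} (hX : τ.Simp ψ X) (hY : τ.Simp ψ Y) (f : X ⟶ Y) (hf : f ≠ 0) : IsIso f := by
  obtain ⟨Z, p, q, ht, hZ⟩ := cone_simp hW hX hY.1 f hf
  rcases hY.2.2 X Z ⟨_, _, _, ht⟩ hX.1 hZ with h | h
  · exact absurd h hX.2.1
  · exact (Triangle.isZero₃_iff_isIso₁ _ ht).1 h

end Pool.Agent.H934.K
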