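import Mathlib
import Pool.Agent.H934.Simple

set_option autoImplicit false
set_option linter.unusedSectionVars false
set_option linter.unusedVariables false

open CategoryTheory CategoryTheory.Limits CategoryTheory.Pretriangulated ZeroObject

namespace Pool.Agent.H934.K

universe w v u

variable {T : Type u} [Category.{v} T] [Preadditive T]
  [HasZeroObject T] [HasShift T ℤ]
  [∀ n : ℤ, (shiftFunctor T n).Additive] [Pretriangulated T]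

variable (T) in
/-- A group acting on `T` by exact autoequivalences (up to isomorphisms of objects). -/
structure AutAction (G : Type w) [Group G] where
  /-- the autoequivalences -/
  Φ : G → (T ≌ T)
  comm : ∀ g, (Φ g).functor.CommShift ℤ
  tri : ∀ g, letI := comm g; (Φ g).functor.IsTriangulated
  one : ∀ E : T, Nonempty ((Φ 1).functor.obj E ≅ E)
  mul : ∀ (g h : G) (E : T),
    Nonempty ((Φ (g * h)).functor.obj E ≅ (Φ g).functor.obj ((Φ h).functor.obj E))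

/-- Application of an autoequivalence to an object. -/
abbrev AutAction.o {G : Type w} [Group G] (α : AutAction T G) (g : G) (E : T) : T :=
  (α.Φ g).functor.obj E

namespace AutAction

variable {G : Type w} [Group G] (α : AutAction T G)

lemma isTri (g : G) {A B C : T} (h : IsTri A B C) : IsTri (α.o g A) (α.o g B) (α.o g C) := by
  obtain ⟨a, b, c, ht⟩ := h
  let := α.comm g
  have := α.tri g
  exact ⟨_, _, _, (α.Φ g).functor.map_distinguished _ ht⟩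

lemma inv_mul (g : G) (E : T) : Nonempty (α.o g⁻¹ (α.o g E) ≅ E) := by
  obtain ⟨e⟩ := α.mul g⁻¹ g E
  obtain ⟨e'⟩ := α.one E
  rw [inv_mul_cancel] at e
  exact ⟨e.symm ≪≫ e'⟩

lemma mul_inv (g : G) (E : T) : Nonempty (α.o g (α.o g⁻¹ E) ≅ E) := by
  obtain ⟨e⟩ := α.mul g g⁻¹ E
  obtain ⟨e'⟩ := α.one E
  rw [mul_inv_cancel] at e
  exact ⟨e.symm ≪≫ e'⟩

lemma hom_zero_iso {X X' Y Y' : T} (e : X ≅ X') (e' : Y ≅ Y') (h : ∀ f : X ⟶ Y, f = 0)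
    (f : X' ⟶ Y') : f = 0 := by
  have h1 := h (e.hom ≫ f ≫ e'.inv)
  rw [← cancel_epi e.hom, ← cancel_mono e'.inv, Category.assoc, h1, comp_zero, zero_comp]

/-- Vanishing of morphisms is preserved. -/
lemma hom_zero (g : G) {X Y : T} (h : ∀ f : X ⟶ Y, f = 0) (f : α.o g X ⟶ α.o g Y) : f = 0 := by
  obtain ⟨f', hf'⟩ := (α.Φ g).functor.map_surjective f
  rw [← hf', h f', Functor.map_zero]

lemma hom_zero_left (g : G) {X Y : T} (h : ∀ f : X ⟶ α.o g⁻¹ Y, f = 0) (f : α.o g X ⟶ Y) :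
    f = 0 := by
  obtain ⟨e⟩ := α.mul_inv g Y
  exact hom_zero_iso (Iso.refl _) e (α.hom_zero g h) f

lemma hom_zero_right (g : G) {X Y : T} (h : ∀ f : α.o g⁻¹ X ⟶ Y, f = 0) (f : X ⟶ α.o g Y) :
    f = 0 := by
  obtain ⟨e⟩ := α.mul_inv g X
  exact hom_zero_iso e (Iso.refl _) (α.hom_zero g h) f

lemma isZero_iff (g : G) (X : T) : IsZero (α.o g X) ↔ IsZero X := by
  constructor
  · intro h0
    rw [IsZero.iff_id_eq_zero] at h0 ⊢
    apply (α.Φ g).functor.map_injective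
    rw [CategoryTheory.Functor.map_id, h0, Functor.map_zero]
  · intro h
    exact (α.Φ g).functor.map_isZero h

end AutAction

/-- Uniqueness of the outer terms of triangles. -/
lemma unique_tri {A E B A' E' B' : T} (ht : IsTri A E B) (ht' : IsTri A' E' B') (e : E ≅ E')
    (h1 : ∀ f : A ⟶ B', f = 0) (h2 : ∀ f : A' ⟶ B, f = 0)
    (h3 : ∀ f : A ⟶ B⟦(-1 : ℤ)⟧, f = 0) (h4 : ∀ f : A' ⟶ B'⟦(-1 : ℤ)⟧, f = 0) :
    Nonempty (A ≅ A') ∧ Nonempty (B ≅ B') := by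
  obtain ⟨a, b, c, ht⟩ := ht
  obtain ⟨a', b', c', ht'⟩ := ht'
  obtain ⟨α, hα⟩ : ∃ α : A ⟶ A', a ≫ e.hom = α ≫ a' :=
    Triangle.coyoneda_exact₂ _ ht' (a ≫ e.hom) (h1 _)
  obtain ⟨β, hβ⟩ : ∃ β : A' ⟶ A, a' ≫ e.inv = β ≫ a :=
    Triangle.coyoneda_exact₂ _ ht (a' ≫ e.inv) (h2 _)
  have hm : ∀ x : A ⟶ A, x ≫ a = 0 → x = 0 := by
    intro x hx
    obtain ⟨y, hy⟩ := Triangle.coyoneda_exact₂ _ (inv_rot_of_distTriang _ ht) x hx
    have hy0 : y = 0 := h3 y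
    rw [hy0] at hy
    exact hy.trans zero_comp
  have hm' : ∀ x : A' ⟶ A', x ≫ a' = 0 → x = 0 := by
    intro x hx
    obtain ⟨y, hy⟩ := Triangle.coyoneda_exact₂ _ (inv_rot_of_distTriang _ ht') x hx
    have hy0 : y = 0 := h4 y
    rw [hy0] at hy
    exact hy.trans zero_comp
  have k1 : α ≫ β = 𝟙 A := by
    rw [← sub_eq_zero]
    apply hm
    rw [Preadditive.sub_comp, Category.assoc, ← hβ, ← Category.assoc, ← hα, Category.assoc,
      e.hom_inv_id, Category.comp_id, Category.id_comp, sub_self]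
  have k2 : β ≫ α = 𝟙 A' := by
    rw [← sub_eq_zero]
    apply hm'
    rw [Preadditive.sub_comp, Category.assoc, ← hα, ← Category.assoc, ← hβ, Category.assoc,
      e.inv_hom_id, Category.comp_id, Category.id_comp, sub_self]
  let eA : A ≅ A' := ⟨α, β, k1, k2⟩
  refine ⟨⟨eA⟩, ?_⟩
  obtain ⟨γ, hγ1, hγ2⟩ := complete_distinguished_triangle_morphism _ _ ht ht' α e.hom hα
  let φ : Triangle.mk a b c ⟶ Triangle.mk a' b' c' := ⟨α, e.hom, γ, hα, hγ1, hγ2⟩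
  have i1 : IsIso φ.hom₁ := ⟨β, k1, k2⟩
  have i2 : IsIso φ.hom₂ := ⟨e.inv, e.hom_inv_id, e.inv_hom_id⟩
  have i3 : IsIso φ.hom₃ := isIso₃_of_isIso₁₂ φ ht ht' i1 i2
  exact ⟨@asIso _ _ _ _ φ.hom₃ i3⟩

variable [IsTriangulated T]

open Pool.Agent.H934.Slicing

variable {σ : Slicing T} {W : T → ℂ} (hW : IsCharge σ W)
  {ε : ℝ} (hε0 : 0 < ε) (hε : ∀ (ψ : ℝ) (X : T), σ.P ψ X → ¬ IsZero X → ε ≤ ‖W X‖)

include hW hε0 hε

/-- The maximal subobject filtered by a family of simple objects. -/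
theorem exists_filt_family {V : T → ℤ}
    (hVadd : ∀ Δ : Triangle T, Δ ∈ distTriang T → V Δ.obj₂ = V Δ.obj₁ + V Δ.obj₃)
    (hViso : ∀ E F : T, (E ≅ F) → V E = V F) {ψ : ℝ} {Q : T → Prop}
    (hQ : ∀ C, Q C → σ.Simp ψ C) {v : ℤ} {z : ℂ} (hQV : ∀ C, Q C → V C = v)
    (hQW : ∀ C, Q C → W C = z) {C₀ E B₀ : T} (hC₀ : Q C₀) (ht₀ : IsTri C₀ E B₀)
    (hB₀ : σ.P ψ B₀) :
    ∃ (n : ℕ) (A B : T), IsTri A E B ∧ σ.P ψ A ∧ σ.P ψ B ∧ ¬ IsZero A ∧ V A = n * v ∧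
      (∀ Y : T, (∀ C, Q C → ∀ f : C ⟶ Y, f = 0) → ∀ f : A ⟶ Y, f = 0) ∧
      (∀ C, Q C → ∀ f : C ⟶ B, f = 0) ∧ (n = 1 → Q A) := by
  have hV0 : V (0 : T) = 0 := by
    have := hVadd _ (contractible_distinguished (0 : T))
    have h2 : V (0 : T) = V (0 : T) + V (0 : T) := this
    omega
  have hVs : ∀ X : T, V (X⟦(1 : ℤ)⟧) = - V X := by
    intro X
    have h2 := hVadd _ (rot_of_distTriang _ (contractible_distinguished X))
    have h3 : V (0 : T) = V X + V (X⟦(1 : ℤ)⟧) := h2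
    omega
  have hVm : ∀ X : T, V (X⟦(-1 : ℤ)⟧) = - V X := by
    intro X
    have h1 := hVs (X⟦(-1 : ℤ)⟧)
    have h2 : V ((X⟦(-1 : ℤ)⟧)⟦(1 : ℤ)⟧) = V X :=
      hViso _ _ ((shiftFunctorCompIsoId T (-1 : ℤ) 1 (by ring)).app X)
    omega
  by_contra hcon
  push Not at hcon
  have key : ∀ m : ℕ, ∃ (A B : T) (a : A ⟶ E) (b : E ⟶ B) (c : B ⟶ A⟦(1 : ℤ)⟧),
      Triangle.mk a b c ∈ distTriang T ∧ σ.P ψ A ∧ σ.P ψ B ∧ ¬ IsZero A ∧
      V A = ((m + 1 : ℕ) : ℤ) * v ∧ W A = ((m + 1 : ℕ) : ℂ) * z ∧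
      (∀ Y : T, (∀ C, Q C → ∀ f : C ⟶ Y, f = 0) → ∀ f : A ⟶ Y, f = 0) ∧ (m = 0 → Q A) := by
    intro m
    induction m with
    | zero =>
      obtain ⟨a, b, c, ht⟩ := ht₀
      exact ⟨C₀, B₀, a, b, c, ht, (hQ _ hC₀).1, hB₀, (hQ _ hC₀).2.1, by simp [hQV _ hC₀],
        by simp [hQW _ hC₀], fun Y h => h _ hC₀, fun _ => hC₀⟩
    | succ m ih =>
      obtain ⟨A, B, a, b, c, ht, hA, hB, hAz, hVA, hWA, hfil, h1A⟩ := ih
      obtain ⟨C, hCQ, g, hg⟩ : ∃ C, Q C ∧ ∃ g : C ⟶ B, g ≠ 0 := by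
        by_contra hc
        push Not at hc
        obtain ⟨h1, h2⟩ := hcon (m + 1) A B ⟨a, b, c, ht⟩ hA hB hAz hVA hfil hc
        exact h2 (h1A (by omega))
      have hC := hQ C hCQ
      obtain ⟨X, p, q, htX, hX⟩ := cone_simp hW hC hB g hg
      obtain ⟨R, p', q', r, s, w, k1, k2, k3, k4⟩ :=
        octa (rot_of_distTriang _ ht) (rot_of_distTriang _ htX)
      have hA1 : σ.P (ψ + 1) (A⟦(1 : ℤ)⟧) := (σ.shift _ _).2 hA
      have hC1 : σ.P (ψ + 1) (C⟦(1 : ℤ)⟧) := (σ.shift _ _).2 hC.1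
      have hR : σ.P (ψ + 1) R := P_ext k2 hA1 hC1
      have hVR : V R = V (A⟦(1 : ℤ)⟧) + V (C⟦(1 : ℤ)⟧) := hVadd _ k2
      have hWR : W R = W (A⟦(1 : ℤ)⟧) + W (C⟦(1 : ℤ)⟧) := hW.add _ k2
      have hA' : σ.P ψ (R⟦(-1 : ℤ)⟧) := by
        have := P_shift_neg hR 1
        simpa using this
      have hVA' : V (R⟦(-1 : ℤ)⟧) = ((m + 1 + 1 : ℕ) : ℤ) * v := by
        rw [hVm, hVR, hVs, hVs, hVA, hQV C hCQ]; push_cast; ring
      have hWA' : W (R⟦(-1 : ℤ)⟧) = ((m + 1 + 1 : ℕ) : ℂ) * z := by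
        rw [hW.shift_neg, hWR, hW.shift, hW.shift, hWA, hQW C hCQ]; push_cast; ring
      have hWC : z ≠ 0 := by
        rw [← hQW C hCQ]
        exact hW.ne_zero hC.1 hC.2.1
      have hA'z : ¬ IsZero (R⟦(-1 : ℤ)⟧) := by
        intro h0
        rw [hW.zero h0] at hWA'
        have h1 : ((m + 1 + 1 : ℕ) : ℂ) ≠ 0 := by
          rw [Nat.cast_ne_zero]; omega
        exact mul_ne_zero h1 hWC hWA'.symm
      refine ⟨R⟦(-1 : ℤ)⟧, X, _, _, _, inv_rot_of_distTriang _ k1, hA', hX, hA'z, hVA', hWA', ?_,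
        fun h => by omega⟩
      intro Y hY f
      refine shift_hom_zero (-1) (fun f => ?_) f
      have hCf : ∀ g : C⟦(1 : ℤ)⟧ ⟶ Y⟦-(-1 : ℤ)⟧, g = 0 := by
        intro g
        refine shift_hom_zero 1 (fun g => ?_) g
        have e : (Y⟦-(-1 : ℤ)⟧)⟦(-1 : ℤ)⟧ ≅ Y :=
          (shiftFunctorCompIsoId T (-(-1)) (-1) (by ring)).app Y
        have h1 := hY C hCQ (g ≫ e.hom)
        rw [← cancel_mono e.hom, h1, zero_comp]
      have hAf : ∀ g : A⟦(1 : ℤ)⟧ ⟶ Y⟦-(-1 : ℤ)⟧, g = 0 := by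
        intro g
        refine shift_hom_zero 1 (fun g => ?_) g
        have e : (Y⟦-(-1 : ℤ)⟧)⟦(-1 : ℤ)⟧ ≅ Y :=
          (shiftFunctorCompIsoId T (-(-1)) (-1) (by ring)).app Y
        have h1 := hfil Y hY (g ≫ e.hom)
        rw [← cancel_mono e.hom, h1, zero_comp]
      obtain ⟨g, hg'⟩ := Triangle.yoneda_exact₂ _ k2 f (hAf _)
      have hg0 : g = 0 := hCf g
      rw [hg', hg0, comp_zero]
      rfl
  -- contradiction with boundedness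
  have hEP : σ.P ψ E := by
    obtain ⟨a, b, c, ht⟩ := ht₀
    exact P_ext ht (hQ _ hC₀).1 hB₀
  obtain ⟨m, hm⟩ := exists_nat_gt (‖W E‖ / ε)
  obtain ⟨A, B, a, b, c, ht, hA, hB, hAz, hVA, hWA, hfil, -⟩ := key m
  have h1 : ‖W E‖ = ‖W A‖ + ‖W B‖ := hW.norm_add ht hA hB
  have h2 : ‖W A‖ = ((m + 1 : ℕ) : ℝ) * ‖z‖ := by
    rw [hWA, norm_mul, Complex.norm_natCast]
  have h3 : ε ≤ ‖z‖ := by
    rw [← hQW _ hC₀]
    exact hε ψ C₀ (hQ _ hC₀).1 (hQ _ hC₀).2.1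
  have h4 : ‖W E‖ < m * ε := by
    rwa [div_lt_iff₀ hε0] at hm
  have h5 : (m : ℝ) * ε ≤ ((m + 1 : ℕ) : ℝ) * ‖z‖ := by
    push_cast
    nlinarith [norm_nonneg z]
  have h6 := norm_nonneg (W B)
  linarith

end Pool.Agent.H934.K
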