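import Mathlib
import Pool.Agent.H934.K.Twist
import Pool.Agent.H934.K.Detect
import Pool.Agent.H934.K.Mukai

set_option autoImplicit false
set_option linter.unusedSectionVars false
set_option linter.unusedVariables false

open CategoryTheory CategoryTheory.Limits CategoryTheory.Pretriangulated ZeroObject

namespace Pool.Agent.H934.K

universe w₁ w v u

variable {𝕜 : Type w} [Field 𝕜] {T : Type u} [Category.{v} T] [Preadditive T]
  [HasZeroObject T] [HasShift T ℤ]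
  [∀ n : ℤ, (shiftFunctor T n).Additive] [Pretriangulated T] [IsTriangulated T] [Linear 𝕜 T]
  [∀ n : ℤ, (shiftFunctor T n).Linear 𝕜]

open Pool.Agent.H934.Slicing

variable {G : Type w₁} [Group G]

/-- `A` is isomorphic to all its images under the elements of the subgroup `Γ`. -/
def AutAction.Inv (α : AutAction T G) (Γ : Subgroup G) (A : T) : Prop :=
  ∀ g ∈ Γ, Nonempty (α.o g A ≅ A)

section core

variable (hT : ExtFinite 𝕜 T) {𝒮 : SerreFunctor 𝕜 T} (α : AutAction T G) (Γ : Subgroup G)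
  {ω : G} (hω : ω ∈ Γ) (hS : ∀ E : T, Nonempty (𝒮.o E ≅ (α.o ω E)⟦(2 : ℤ)⟧))
  (hχ : ∀ A : T, α.Inv Γ A → eul 𝕜 A A ≤ 0)
  {σ : Slicing T} (hinv : ∀ (g : G) (φ : ℝ) (E : T), σ.P φ E ↔ σ.P φ (α.o g E))

include hinv in
lemma shifts (g : G) : σ.Shifts (α.Φ g) 0 := by
  intro φ E
  rw [add_zero]
  exact hinv g φ E

include hT hω hS hχ hinv

/-- Nonzero semistable invariant objects have at least two independent self-extensions. -/
lemma two_le_ss {φ : ℝ} {E : T} (hE : σ.P φ E) (hz : ¬ IsZero E) (hI : α.Inv Γ E) :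
    2 ≤ Module.finrank 𝕜 (E ⟶ E⟦(1 : ℤ)⟧) := by
  have f0 := hT.fin E E 0
  have f2 := hT.fin E E 2
  obtain ⟨eS⟩ := hS E
  have hωE : σ.P φ (α.o ω E) := (hinv ω φ E).1 hE
  have hSE : σ.P (φ + 2) (𝒮.o E) := by
    have := P_shift hωE 2
    push_cast at this
    exact σ.iso _ _ _ ⟨eS.symm⟩ this
  have hv : ∀ i : ℤ, i < -2 ∨ 2 < i → ∀ g : E ⟶ E⟦i⟧, g = 0 := by
    intro i hi g
    have hEi := P_shift hE i
    rcases hi with h | h
    · have h' : (i : ℝ) < -2 := by exact_mod_cast h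
      exact σ.hom _ _ _ _ (by linarith) hE hEi g
    · have h' : (2 : ℝ) < i := by exact_mod_cast h
      exact serre_zero 𝒮 (fun g => σ.hom (φ + i) (φ + 2) _ _ (by linarith) hEi hSE g) g
  have h1 : eul 𝕜 E E = _ := chi_eq_sum (E := E) (F := E) 2 hv
  have hIcc : Finset.Icc (-2 : ℤ) 2 = {-2, -1, 0, 1, 2} := by decide
  rw [hIcc, Finset.sum_insert (by decide), Finset.sum_insert (by decide),
    Finset.sum_insert (by decide), Finset.sum_insert (by decide), Finset.sum_singleton] at h1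
  have hm1 : ∀ g : E ⟶ E⟦(-1 : ℤ)⟧, g = 0 := by
    intro g
    have hEi := P_shift hE (-1)
    exact σ.hom _ _ _ _ (by push_cast; linarith) hE hEi g
  have hm2 : ∀ g : E ⟶ E⟦(-2 : ℤ)⟧, g = 0 := by
    intro g
    have hEi := P_shift hE (-2)
    exact σ.hom _ _ _ _ (by push_cast; linarith) hE hEi g
  have hs : Subsingleton (E ⟶ E⟦(-1 : ℤ)⟧) := ⟨fun x y => by rw [hm1 x, hm1 y]⟩
  have hs2 : Subsingleton (E ⟶ E⟦(-2 : ℤ)⟧) := ⟨fun x y => by rw [hm2 x, hm2 y]⟩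
  rw [Module.finrank_zero_of_subsingleton (M := (E ⟶ E⟦(-1 : ℤ)⟧)),
    Module.finrank_zero_of_subsingleton (M := (E ⟶ E⟦(-2 : ℤ)⟧))] at h1
  have n0 : ((0 : ℤ).negOnePow : ℤ) = 1 := rfl
  have n1 : ((1 : ℤ).negOnePow : ℤ) = -1 := by simp
  have n2 : ((2 : ℤ).negOnePow : ℤ) = 1 := by
    rw [Int.negOnePow_even 2 (by decide)]; rfl
  rw [n0, n1, n2] at h1
  -- identity
  have h2 : 1 ≤ Module.finrank 𝕜 (E ⟶ E⟦(0 : ℤ)⟧) := by
    by_contra hc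
    have h3 : Module.finrank 𝕜 (E ⟶ E⟦(0 : ℤ)⟧) = 0 := by omega
    have h4 := Module.finrank_zero_iff.1 h3
    have h5 : ∀ g : E ⟶ E⟦(0 : ℤ)⟧, g = 0 := fun g => Subsingleton.elim _ _
    apply hz
    rw [IsZero.iff_id_eq_zero]
    have e : E ≅ E⟦(0 : ℤ)⟧ := ((shiftFunctorZero T ℤ).app E).symm
    rw [← e.hom_inv_id, h5 e.hom, zero_comp]
  have h3 : 1 ≤ Module.finrank 𝕜 (E ⟶ E⟦(2 : ℤ)⟧) := by
    by_contra hc
    have h3 : Module.finrank 𝕜 (E ⟶ E⟦(2 : ℤ)⟧) = 0 := by omega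
    have h4 := Module.finrank_zero_iff.1 h3
    have h5 : ∀ g : E ⟶ E⟦(2 : ℤ)⟧, g = 0 := fun g => Subsingleton.elim _ _
    apply hz
    rw [IsZero.iff_id_eq_zero]
    obtain ⟨eω⟩ := hI ω hω
    exact serre_zero 𝒮 (fun g => AutAction.hom_zero_iso (Iso.refl E)
      (((shiftFunctor T (2 : ℤ)).mapIso eω).symm ≪≫ eS.symm) h5 g) (𝟙 E)
  have h4 := hχ E hI
  push_cast at h1
  omega

omit hT hω hχ in
/-- Vanishing for the weak Mukai lemma. -/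
lemma mukai_zero {ρ : ℝ} {A B : T} (hA : σ.P ρ A) (hB : σ.Lt ρ B)
    (f : B ⟶ (A⟦(1 : ℤ)⟧)⟦(1 : ℤ)⟧) : f = 0 := by
  refine serre_zero 𝒮 (fun g => ?_) f
  obtain ⟨eS⟩ := hS B
  have hωB : σ.Lt ρ (α.o ω B) := by
    have := Lt.map (shifts α hinv ω) hB
    rwa [add_zero] at this
  have hSB : σ.Lt (ρ + 2) (𝒮.o B) := by
    have := hωB.shift 2
    push_cast at this
    exact this.iso eS.symm
  have hA2 : σ.P (ρ + 1 + 1) ((A⟦(1 : ℤ)⟧)⟦(1 : ℤ)⟧) :=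
    (σ.shift _ _).2 ((σ.shift _ _).2 hA)
  exact hSB _ (by linarith) _ hA2 g

omit hT hω hS hχ in
/-- The pieces of the Harder-Narasimhan filtration of an invariant object are invariant. -/
lemma inv_of_tri {ρ : ℝ} {A E B : T} (ht : IsTri A E B) (hA : σ.P ρ A) (hB : σ.Lt ρ B)
    (hE : α.Inv Γ E) : α.Inv Γ A ∧ α.Inv Γ B := by
  have key : ∀ g ∈ Γ, Nonempty (α.o g A ≅ A) ∧ Nonempty (α.o g B ≅ B) := by
    intro g hg
    obtain ⟨e⟩ := hE g hg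
    have hA' : σ.P ρ (α.o g A) := (hinv g ρ A).1 hA
    have hB' : σ.Lt ρ (α.o g B) := by
      have := Lt.map (shifts α hinv g) hB
      rwa [add_zero] at this
    refine unique_tri (α.isTri g ht) ht e (hB ρ le_rfl _ hA') (hB' ρ le_rfl _ hA) ?_ ?_
    · exact fun f => hB'.shiftm1 ρ (by linarith) _ hA' f
    · exact fun f => hB.shiftm1 ρ (by linarith) _ hA f
  exact ⟨fun g hg => (key g hg).1, fun g hg => (key g hg).2⟩

/-- Invariant objects with few self-extensions are semistable. -/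
theorem exists_phase {E : T} (hz : ¬ IsZero E) (hI : α.Inv Γ E)
    (h1 : Module.finrank 𝕜 (E ⟶ E⟦(1 : ℤ)⟧) ≤ 3) : ∃ φ, σ.P φ E := by
  obtain ⟨ρ, A, B, a, b, c, ht, hA, hAz, hB⟩ := σ.exists_max hz
  obtain ⟨hAI, hBI⟩ := inv_of_tri α Γ hinv ⟨a, b, c, ht⟩ hA hB hI
  have hle := weak_mukai hT ht (hB ρ le_rfl A hA) (mukai_zero α hS hinv hA hB)
  have hA2 := two_le_ss hT α Γ hω hS hχ hinv hA hAz hAI
  have hBz : IsZero B := by
    by_contra hBz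
    obtain ⟨ρ', A', B', a', b', c', ht', hA', hAz', hB'⟩ := σ.exists_max hBz
    obtain ⟨hAI', hBI'⟩ := inv_of_tri α Γ hinv ⟨a', b', c', ht'⟩ hA' hB' hBI
    have hle' := weak_mukai hT ht' (hB' ρ' le_rfl A' hA') (mukai_zero α hS hinv hA' hB')
    have hA2' := two_le_ss hT α Γ hω hS hχ hinv hA' hAz' hAI'
    omega
  have : IsIso a := (Triangle.isZero₃_iff_isIso₁ _ ht).1 hBz
  exact ⟨ρ, σ.iso _ _ _ ⟨asIso a⟩ hA⟩

omit hT hω hS hχ in
/-- Autoequivalences preserving the slicing preserve stable objects. -/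
lemma simp_act {ψ : ℝ} {C : T} (hC : σ.Simp ψ C) (g : G) : σ.Simp ψ (α.o g C) := by
  refine ⟨(hinv g ψ C).1 hC.1, fun h => hC.2.1 ((α.isZero_iff g C).1 h), fun X Y ht hX hY => ?_⟩
  obtain ⟨e⟩ := α.inv_mul g C
  have h1 := isTri_iso₂ (α.isTri g⁻¹ ht) e
  rcases hC.2.2 _ _ h1 ((hinv g⁻¹ ψ X).1 hX) ((hinv g⁻¹ ψ Y).1 hY) with h | h
  · exact Or.inl ((α.isZero_iff g⁻¹ X).1 h)
  · exact Or.inr ((α.isZero_iff g⁻¹ Y).1 h)

/-- Invariant objects with few self-extensions and primitive class are stable. -/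
theorem simp_of_two {W : T → ℂ} (hW : IsCharge σ W)
    (hnum : ∀ g ∈ Γ, ∀ F E : T, eul 𝕜 F (α.o g E) = eul 𝕜 F E)
    (hWnum : ∀ g ∈ Γ, ∀ E : T, W (α.o g E) = W E)
    {ε : ℝ} (hε0 : 0 < ε) (hε : ∀ (ψ : ℝ) (X : T), σ.P ψ X → ¬ IsZero X → ε ≤ ‖W X‖)
    {ψ : ℝ} {E : T} (hE : σ.P ψ E) (hz : ¬ IsZero E) (hI : α.Inv Γ E)
    (h1 : Module.finrank 𝕜 (E ⟶ E⟦(1 : ℤ)⟧) ≤ 3) {R : T} (hR : eul 𝕜 R E = 1) :
    σ.Simp ψ E := by
  obtain ⟨m, hm⟩ := exists_nat_gt (‖W E‖ / ε)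
  obtain ⟨C₀, B₀, ht₀, hC₀, hB₀⟩ := hW.exists_simp hε0 hε m E hE hz
    (by rwa [div_lt_iff₀ hε0] at hm)
  let Q : T → Prop := fun C => ∃ g ∈ Γ, Nonempty (C ≅ α.o g C₀)
  have hQ : ∀ C, Q C → σ.Simp ψ C := by
    rintro C ⟨g, hg, ⟨e⟩⟩
    exact (simp_act α hinv hC₀ g).iso e.symm
  have hQ0 : Q C₀ := by
    obtain ⟨e⟩ := α.one C₀
    exact ⟨1, Γ.one_mem, ⟨e.symm⟩⟩
  have hQact : ∀ C, Q C → ∀ g ∈ Γ, Q (α.o g C) := by
    rintro C ⟨g', hg', ⟨e⟩⟩ g hg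
    obtain ⟨e'⟩ := α.mul g g' C₀
    exact ⟨g * g', Γ.mul_mem hg hg', ⟨(α.Φ g).functor.mapIso e ≪≫ e'.symm⟩⟩
  obtain ⟨n, A, B, ht, hA, hB, hAz, hVA, hfil, horth, hn1⟩ :=
    exists_filt_family hW hε0 hε (V := fun X => eul 𝕜 R X)
      (fun Δ hΔ => eul_add hT hΔ R) (fun X Y e => eul_iso_right e) (Q := Q) hQ
      (v := eul 𝕜 R C₀) (z := W C₀)
      (by
        rintro C ⟨g, hg, ⟨e⟩⟩
        exact (eul_iso_right e).trans (hnum g hg R C₀))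
      (by
        rintro C ⟨g, hg, ⟨e⟩⟩
        exact (hW.iso _ _ e).trans (hWnum g hg C₀)) hQ0 ht₀ hB₀
  have hAB : ∀ g ∈ Γ, ∀ f : A ⟶ α.o g B, f = 0 := by
    intro g hg
    refine hfil _ (fun C hC => α.hom_zero_right g ?_)
    exact horth _ (hQact C hC g⁻¹ (Γ.inv_mem hg))
  have hAB0 : ∀ f : A ⟶ B, f = 0 := hfil _ horth
  have key : ∀ g ∈ Γ, Nonempty (α.o g A ≅ A) ∧ Nonempty (α.o g B ≅ B) := by
    intro g hg
    obtain ⟨e⟩ := hI g hg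
    have hA' : σ.P ψ (α.o g A) := (hinv g ψ A).1 hA
    have hB' : σ.P ψ (α.o g B) := (hinv g ψ B).1 hB
    refine unique_tri (α.isTri g ht) ht e ?_ (hAB g hg) ?_ ?_
    · exact α.hom_zero_left g (hAB g⁻¹ (Γ.inv_mem hg))
    · exact fun f => σ.hom ψ (ψ - 1) _ _ (by linarith) hA' (by simpa using P_shift_neg hB' 1) f
    · exact fun f => σ.hom ψ (ψ - 1) _ _ (by linarith) hA (by simpa using P_shift_neg hB 1) f
  have hA2 := two_le_ss hT α Γ hω hS hχ hinv hA hAz (fun g hg => (key g hg).1)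
  have hser : ∀ f : B ⟶ (A⟦(1 : ℤ)⟧)⟦(1 : ℤ)⟧, f = 0 := by
    intro f
    refine serre_zero 𝒮 (fun g => ?_) f
    obtain ⟨eS⟩ := hS B
    have h2 : ∀ f : A⟦(2 : ℤ)⟧ ⟶ (α.o ω B)⟦(2 : ℤ)⟧, f = 0 := by
      intro f
      obtain ⟨f', hf'⟩ := (shiftFunctor T (2 : ℤ)).map_surjective f
      rw [← hf', hAB ω hω f', Functor.map_zero]
    exact AutAction.hom_zero_iso ((shiftFunctorAdd' T (1 : ℤ) 1 2 rfl).app A) eS.symm h2 g
  obtain ⟨a, b, c, ht⟩ := ht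
  have hle := weak_mukai hT ht hAB0 hser
  have hBz : IsZero B := by
    by_contra hBz
    have hB2 := two_le_ss hT α Γ hω hS hχ hinv hB hBz (fun g hg => (key g hg).2)
    omega
  have : IsIso a := (Triangle.isZero₃_iff_isIso₁ _ ht).1 hBz
  have hn : n = 1 := by
    have h2 : eul 𝕜 R A = eul 𝕜 R E := eul_iso_right (asIso a)
    have h3 : (n : ℤ) * eul 𝕜 R C₀ = 1 := by rw [← hVA, h2, hR]
    have h4 : (n : ℤ) ∣ 1 := ⟨_, h3.symm⟩
    have h5 := Int.eq_one_of_dvd_one (by positivity) h4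
    exact_mod_cast h5
  exact (hQ A (hn1 hn)).iso (asIso a)

end core

end Pool.Agent.H934.K
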