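import Mathlib
import Pool.Agent.H934.K.Surf

set_option autoImplicit false
set_option linter.unusedSectionVars false
set_option linter.unusedVariables false

/-!
# Bielliptic surfaces

`BiellipticData` collects the elementary facts about the bounded derived category of a bielliptic
surface which are used in the proof that all stability conditions are geometric.
-/

open CategoryTheory CategoryTheory.Limits CategoryTheory.Pretriangulated ZeroObject

namespace Pool.Agent.H934.K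

universe w₃ w₂ w₁ w v u

variable {𝕜 : Type w} [Field 𝕜] {T : Type u} [Category.{v} T] [Preadditive T]
  [HasZeroObject T] [HasShift T ℤ]
  [∀ n : ℤ, (shiftFunctor T n).Additive] [Pretriangulated T] [IsTriangulated T] [Linear 𝕜 T]
  [∀ n : ℤ, (shiftFunctor T n).Linear 𝕜]

/-- `E` is a stable object of phase `φ`: a simple object of the abelian category `P(φ)`, that is
`E` is a nonzero object of `P(φ)` and in every distinguished triangle `X ⟶ E ⟶ Y ⟶ X[1]` with `X`
and `Y` in `P(φ)` one of the objects `X` and `Y` is zero. -/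
def StableOf (σ : Slicing T) (φ : ℝ) (E : T) : Prop :=
  σ.P φ E ∧ ¬ IsZero E ∧ ∀ X Y : T, IsTri X E Y → σ.P φ X → σ.P φ Y → IsZero X ∨ IsZero Y

/-- All the objects `O x` are `σ`-stable, of the same phase. For the family of skyscraper sheaves
this says that `σ` is geometric. -/
def GeometricFor {X : Type w₂} (O : X → T) (σ : Slicing T) : Prop :=
  ∃ φ : ℝ, ∀ x, StableOf σ φ (O x)

/-- The facts on the derived category `T = D^b(S)` of a bielliptic surface `S` which are used. Here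
`f : S ⟶ B` is the Albanese morphism, an elliptic fibration over an elliptic curve, `X` is the set of
closed points of `S` (and `B` stands for the set of closed points of `B`), `G` is the group
`Pic⁰(S) × Aut⁰(S)`, and `Γ` is its subgroup `Pic⁰(S) = f^* Pic⁰(B)`. -/
structure BiellipticData (𝒮 : SerreFunctor 𝕜 T) (G : Type w₁) [Group G] (X : Type w₂)
    [MulAction G X] (B : Type w₃) where
  /-- `D^b(S)` is of finite type -/
  ext : ExtFinite 𝕜 T
  /-- the numerical Grothendieck group is finitely generated -/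
  fin : Module.Finite ℤ (Num 𝕜 T)
  /-- `(L, g)` acts on `D^b(S)` as `E ↦ L ⊗ g_* E` -/
  α : AutAction T G
  /-- the subgroup `Pic⁰(S)` -/
  Γ : Subgroup G
  /-- the canonical bundle of `S` -/
  ω : G
  /-- the canonical bundle is in `Pic⁰(S)` -/
  ω_mem : ω ∈ Γ
  /-- the Serre functor is `E ↦ (ω ⊗ E)[2]` -/
  serre : ∀ E : T, Nonempty (𝒮.S.functor.obj E ≅ ((α.Φ ω).functor.obj E)⟦(2 : ℤ)⟧)
  /-- line bundles in `Pic⁰(S)` are numerically trivial -/
  num : ∀ g ∈ Γ, ∀ F E : T, eul 𝕜 F ((α.Φ g).functor.obj E) = eul 𝕜 F E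
  /-- if `L ⊗ A ≅ A` for all `L` in `Pic⁰(S)`, then `A` is supported on finitely many fibres of `f`
  and `χ(A, A) = 0` -/
  chi_eq_zero : ∀ A : T, (∀ g ∈ Γ, Nonempty ((α.Φ g).functor.obj A ≅ A)) → eul 𝕜 A A = 0
  /-- the skyscraper sheaves -/
  O : X → T
  /-- `L ⊗ g_* O_x ≅ O_{g x}` -/
  act_O : ∀ (g : G) (x : X), Nonempty ((α.Φ g).functor.obj (O x) ≅ O (g • x))
  /-- `Pic⁰(S)` acts trivially on points -/
  smul_eq : ∀ g ∈ Γ, ∀ x : X, g • x = x
  /-- `Ext¹(O_x, O_x)` is the tangent space -/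
  ext_O : ∀ x : X, Module.finrank 𝕜 (O x ⟶ (O x)⟦(1 : ℤ)⟧) = 2
  /-- the structure sheaf -/
  R : T
  /-- `χ(O_S, O_x) = 1` -/
  chi_R : ∀ x : X, eul 𝕜 R (O x) = 1
  /-- all the skyscraper sheaves have the same numerical class -/
  num_O : ∀ (x y : X) (F : T), eul 𝕜 F (O x) = eul 𝕜 F (O y)
  /-- the Albanese morphism -/
  f : X → B
  /-- the structure sheaf of the fibre of `f` over a point -/
  M : B → T
  /-- `L ⊗ O_{f⁻¹(b)} ≅ O_{f⁻¹(b)}` for `L` in `Pic⁰(S)` -/
  act_M : ∀ (b : B), ∀ g ∈ Γ, Nonempty ((α.Φ g).functor.obj (M b) ≅ M b)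
  /-- `Ext¹` of the structure sheaf of a fibre with itself is two-dimensional -/
  ext_M : ∀ b : B, Module.finrank 𝕜 (M b ⟶ (M b)⟦(1 : ℤ)⟧) = 2
  /-- restriction to a point of the fibre -/
  hom_M : ∀ x : X, ∃ u : M (f x) ⟶ O x, u ≠ 0
  /-- `Ext¹(O_x, O_{f⁻¹(b)})` is nonzero for `f(x) = b` -/
  hom_O : ∀ x : X, ∃ u : O x ⟶ (M (f x))⟦(1 : ℤ)⟧, u ≠ 0
  /-- `Aut⁰(S)` acts transitively on `B` -/
  trans : ∀ x y : X, ∃ g : G, f (g • y) = f x

open Pool.Agent.H934.Slicing

variable {𝒮 : SerreFunctor 𝕜 T} {G : Type w₁} [Group G] {X : Type w₂} [MulAction G X]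
  {B : Type w₃}

/-- **Invariant stability conditions on a bielliptic surface are geometric.** -/
theorem geometric_of_invariant (D : BiellipticData 𝒮 G X B) (σ : StabCond 𝕜 T)
    (hσ : ∀ (g : G) (φ : ℝ) (E : T), σ.P φ E ↔ σ.P φ ((D.α.Φ g).functor.obj E)) :
    GeometricFor D.O σ.toSlicing := by
  have hT := D.ext
  have hχ : ∀ A : T, D.α.Inv D.Γ A → eul 𝕜 A A ≤ 0 := fun A hA => (D.chi_eq_zero A hA).le
  have hW := σ.isCharge hT
  have hWnum : ∀ g ∈ D.Γ, ∀ E : T, σ.Z (ncl 𝕜 (D.α.o g E)) = σ.Z (ncl 𝕜 E) := by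
    intro g hg E
    congr 1
    apply Subtype.ext
    funext F
    exact D.num g hg F E
  obtain ⟨ε, hε0, hε⟩ := exists_lower D.fin σ
  have hOI : ∀ x, D.α.Inv D.Γ (D.O x) := by
    intro x g hg
    have := D.act_O g x
    rwa [D.smul_eq g hg x] at this
  have hOz : ∀ x, ¬ IsZero (D.O x) := by
    intro x h0
    have h1 := D.chi_R x
    have h2 : eul 𝕜 D.R (D.O x) = 0 := by
      have h3 := eul_add hT (contractible_distinguished (D.O x)) D.R
      have h4 : eul 𝕜 D.R (D.O x) = eul 𝕜 D.R (D.O x) + eul 𝕜 D.R (0 : T) := h3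
      have h5 : eul 𝕜 D.R (D.O x) = eul 𝕜 D.R (0 : T) :=
        eul_iso_right (h0.iso (isZero_zero T))
      omega
    omega
  have hph : ∀ x, ∃ φ, σ.P φ (D.O x) := fun x =>
    exists_phase hT D.α D.Γ D.ω_mem D.serre hχ hσ (hOz x) (hOI x) (by rw [D.ext_O]; norm_num)
  choose φ hφ using hph
  have hst : ∀ x, StableOf σ.toSlicing (φ x) (D.O x) := fun x =>
    simp_of_two hT D.α D.Γ D.ω_mem D.serre hχ hσ hW D.num hWnum hε0 hε (hφ x) (hOz x) (hOI x)
      (by rw [D.ext_O]; norm_num) (D.chi_R x)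
  -- phases on a fibre
  have hfib : ∀ x y, D.f x = D.f y → φ x = φ y := by
    intro x y hxy
    have hMz : ¬ IsZero (D.M (D.f x)) := by
      intro h0
      obtain ⟨u, hu⟩ := D.hom_M x
      exact hu (h0.eq_of_src _ _)
    obtain ⟨m, hm⟩ := exists_phase hT D.α D.Γ D.ω_mem D.serre hχ hσ hMz (D.act_M (D.f x))
      (by rw [D.ext_M]; norm_num)
    have hm1 : σ.P (m + 1) ((D.M (D.f x))⟦(1 : ℤ)⟧) := (σ.shift _ _).2 hm
    have lo : ∀ z, D.f x = D.f z → m ≤ φ z := by
      intro z hz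
      by_contra hc
      push Not at hc
      have hne := D.hom_M z
      rw [← hz] at hne
      obtain ⟨u, hu⟩ := hne
      exact hu (σ.hom _ _ _ _ hc hm (hφ z) u)
    have hi : ∀ z, D.f x = D.f z → φ z ≤ m + 1 := by
      intro z hz
      by_contra hc
      push Not at hc
      have hne := D.hom_O z
      rw [← hz] at hne
      obtain ⟨u, hu⟩ := hne
      exact hu (σ.hom _ _ _ _ hc (hφ z) hm1 u)
    obtain ⟨a, ha, h1⟩ := σ.phase _ _ (hφ x) (hOz x)
    obtain ⟨b, hb, h2⟩ := σ.phase _ _ (hφ y) (hOz y)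
    have h3 : ncl 𝕜 (D.O x) = ncl 𝕜 (D.O y) := by
      apply Subtype.ext
      funext F
      exact D.num_O x y F
    rw [h3, h2] at h1
    obtain ⟨-, k, hk⟩ := uv_inj (x := φ x) (y := φ y) (m := a) (n := b) ha hb h1.symm
    have e1 := lo x rfl
    have e2 := hi x rfl
    have e3 := lo y hxy
    have e4 := hi y hxy
    have h4 : (-2 : ℝ) < ((2 * k : ℤ) : ℝ) := by push_cast; linarith
    have h5 : ((2 * k : ℤ) : ℝ) < 2 := by push_cast; linarith
    have h6 : -2 < 2 * k := by exact_mod_cast h4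
    have h7 : 2 * k < 2 := by exact_mod_cast h5
    have h8 : k = 0 := by omega
    rw [h8] at hk
    push_cast at hk
    linarith
  have hact : ∀ (g : G) (y : X), φ (g • y) = φ y := by
    intro g y
    obtain ⟨e⟩ := D.act_O g y
    have h1 : σ.P (φ y) (D.O (g • y)) := σ.iso _ _ _ ⟨e⟩ ((hσ g _ _).1 (hφ y))
    exact phase_unique (hφ (g • y)) h1 (hOz (g • y))
  have hall : ∀ x y, φ x = φ y := by
    intro x y
    obtain ⟨g, hg⟩ := D.trans x y
    rw [← hfib _ _ hg, hact]
  rcases isEmpty_or_nonempty X with hX | ⟨⟨x₀⟩⟩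
  · exact ⟨0, fun x => (hX.false x).elim⟩
  · refine ⟨φ x₀, fun x => ?_⟩
    rw [hall x₀ x]
    exact hst x

end Pool.Agent.H934.K
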