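import Mathlib
import Pool.Agent.H934.K.Mukai
set_option autoImplicit false
set_option linter.unusedSectionVars false
set_option linter.unusedVariables false

open CategoryTheory CategoryTheory.Limits CategoryTheory.Pretriangulated ZeroObject

namespace Pool.Agent.H934.K

universe w v u

variable {𝕜 : Type w} [Field 𝕜] {T : Type u} [Category.{v} T] [Preadditive T] [HasZeroObject T] [HasShift T ℤ]
  [∀ n : ℤ, (shiftFunctor T n).Additive] [Pretriangulated T] [IsTriangulated T] [Linear 𝕜 T]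
  [∀ n : ℤ, (shiftFunctor T n).Linear 𝕜]

variable {𝒮 : SerreFunctor 𝕜 T}

open Pool.Agent.H934.Slicing

section trig

lemma sin_pi_neg' {t : ℝ} (h1 : 1 < t) (h2 : t < 2) : Real.sin (Real.pi * t) < 0 := by
  have h := sin_pi_neg (t := t - 2) (by linarith) (by linarith)
  rw [show Real.pi * t = Real.pi * (t - 2) + 2 * Real.pi by ring, Real.sin_add_two_pi]
  exact h

lemma sin_pi_nonneg' {t : ℝ} (h1 : 2 ≤ t) (h2 : t ≤ 3) : 0 ≤ Real.sin (Real.pi * t) := by
  have h := sin_pi_nonneg (t := t - 2) (by linarith) (by linarith)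
  rw [show Real.pi * t = Real.pi * (t - 2) + 2 * Real.pi by ring, Real.sin_add_two_pi]
  exact h

end trig

/-- Semistable objects whose class is the unit vector of their phase. -/
def IsUn (D : NumData 𝒮 (5 / 3)) (σ : Slicing T) (φ : ℝ) (E : T) : Prop :=
  σ.P φ E ∧ D.Z E = uv φ

section un

variable {D : NumData 𝒮 (5 / 3)} {σ : Slicing T} (N : IsNorm D σ) {φ : ℝ} {E : T}

include N

lemma IsUn.serre (h : IsUn D σ φ E) : IsUn D σ (φ + 5 / 3) (𝒮.o E) :=
  ⟨(N.ser φ E).1 h.1, by rw [D.serre, h.2, ← uv_add, add_comm]⟩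

lemma IsUn.shift_neg (h : IsUn D σ φ E) : IsUn D σ (φ - 1) (E⟦(-1 : ℤ)⟧) := by
  refine ⟨?_, ?_⟩
  · have := P_shift_neg h.1 1
    simpa using this
  · rw [N.charge.shift_neg, h.2]
    have : uv φ = uv (φ - 1) * uv 1 := by rw [← uv_add]; congr 1; ring
    rw [this, uv_one]; ring

lemma IsUn.not_isZero (h : IsUn D σ φ E) : ¬ IsZero E := by
  intro h0
  have := h.2
  rw [D.Z_zero h0] at this
  exact uv_ne_zero φ this.symm

end un

section gap

variable (hT : ExtFinite 𝕜 T) (D : NumData 𝒮 (5 / 3)) (hq : D.q = 1) {σ : Slicing T}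
  (N : IsNorm D σ) {τ : Slicing T} {W : T → ℂ} (hW : IsCharge τ W) {L : ℂ →ₗ[ℝ] ℂ}
  (hL : ∀ X : T, W X = L (D.Z X)) {ε : ℝ} (hε0 : 0 < ε)
  (hε : ∀ (ψ : ℝ) (X : T), τ.P ψ X → ¬ IsZero X → ε ≤ ‖W X‖)

include hT hq N hW hL hε0 hε

/-- The phases of a unit object and of its image under the Serre functor. -/
lemma gap {φ ψ ψ' : ℝ} {E : T} (hE : IsUn D σ φ E) (h1 : τ.P ψ E) (h2 : τ.P ψ' (𝒮.o E)) :
    ψ + 1 < ψ' := by
  have hF := (hE.serre N).shift_neg N
  have hFP : τ.P (ψ' - 1) ((𝒮.o E)⟦(-1 : ℤ)⟧) := by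
    have := P_shift_neg h2 1
    simpa using this
  obtain ⟨f, hf⟩ := nv_5' hT D N hE.1 hF.1 (hE.not_isZero N) (hF.not_isZero N) (by linarith)
    (by linarith)
  have hle : ψ ≤ ψ' - 1 := by
    by_contra hc
    push Not at hc
    exact hf (τ.hom _ _ _ _ hc h1 hFP f)
  rcases hle.eq_or_lt with h | h
  · exfalso
    rw [← h] at hFP
    have s1 := stable_unit hT D hq N hW hL hε0 hε hE.1 hE.2 h1
    have s2 := stable_unit hT D hq N hW hL hε0 hε hF.1 hF.2 hFP
    have hiso := Slicing.Simp.iso_of_ne_zero hW s1 s2 f hf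
    have h3 := D.iso _ _ (asIso f)
    rw [hE.2, hF.2] at h3
    obtain ⟨-, k, hk⟩ := uv_inj (x := φ) (y := φ + 5 / 3 - 1) (m := 1) (n := 1) one_pos one_pos
      (by push_cast; rw [one_mul, one_mul]; exact h3)
    have h4 : ((3 * k + 1 : ℤ) : ℝ) = 0 := by push_cast; linarith
    have h5 : 3 * k + 1 = 0 := by exact_mod_cast h4
    omega
  · linarith

/-- The normal form of an arbitrary stability condition. -/
theorem exists_normal (hcy : ∀ E : T, Nonempty (𝒮.o (𝒮.o (𝒮.o E)) ≅ E⟦(5 : ℤ)⟧)) {φ : ℝ} {I : T}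
    (hI : IsUn D σ φ I) : ∃ H : GLTilde, (∀ z, H.g z = L z) ∧ τ.P (H.f φ) I ∧
      τ.P (H.f (φ + 5 / 3)) (𝒮.o I) ∧ τ.P (H.f (φ + 5 / 3 + 5 / 3)) (𝒮.o (𝒮.o I)) := by
  have hI1 := hI.serre N
  have hI2 := hI1.serre N
  have hI3 := hI2.serre N
  obtain ⟨a, ha⟩ := semistable_unit hT D hq N hW hL hI.1 hI.2
  obtain ⟨b, hb⟩ := semistable_unit hT D hq N hW hL hI1.1 hI1.2
  obtain ⟨c, hc⟩ := semistable_unit hT D hq N hW hL hI2.1 hI2.2
  have hd : τ.P (a + 5) (𝒮.o (𝒮.o (𝒮.o I))) := by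
    obtain ⟨e⟩ := hcy I
    have := P_shift ha 5
    push_cast at this
    exact τ.iso _ _ _ ⟨e.symm⟩ this
  have g1 := gap hT D hq N hW hL hε0 hε hI ha hb
  have g2 := gap hT D hq N hW hL hε0 hε hI1 hb hc
  have g3 := gap hT D hq N hW hL hε0 hε hI2 hc hd
  obtain ⟨ma, hma, Wa⟩ := hW.ph _ _ ha (hI.not_isZero N)
  obtain ⟨mb, hmb, Wb⟩ := hW.ph _ _ hb (hI1.not_isZero N)
  obtain ⟨mc, hmc, Wc⟩ := hW.ph _ _ hc (hI2.not_isZero N)
  obtain ⟨md, hmd, Wd⟩ := hW.ph _ _ hd (hI3.not_isZero N)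
  have hω : uv (5 / 3) * uv (5 / 3) = uv (5 / 3) - 1 := by
    have hre : (uv (5 / 3)).re = 1 / 2 := by rw [uv_re, cos_5]
    have him : (uv (5 / 3)).im ^ 2 = 3 / 4 := by
      rw [uv_im, sin_5]; ring_nf; rw [Real.sq_sqrt (by norm_num)]; norm_num
    apply Complex.ext
    · simp only [Complex.mul_re, Complex.sub_re, Complex.one_re, hre]
      nlinarith
    · simp only [Complex.mul_im, Complex.sub_im, Complex.one_im, hre]
      ring
  have r1 : W (𝒮.o (𝒮.o I)) = W (𝒮.o I) - W I := by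
    rw [hL, hL, hL, ← map_sub]
    congr 1
    rw [D.serre, D.serre]
    linear_combination D.Z I * hω
  have r2 : W (𝒮.o (𝒮.o (𝒮.o I))) = - W I := by
    rw [hL, hL, ← map_neg]
    congr 1
    rw [D.serre, D.serre, D.serre]
    linear_combination (D.Z I * uv (5 / 3) + D.Z I) * hω
  have A1 : area (W I) (W (𝒮.o I)) = ma * mb * Real.sin (Real.pi * (b - a)) := by
    rw [Wa, Wb, area_uv]
  have A2 : area (W I) (W (𝒮.o I)) = mb * mc * Real.sin (Real.pi * (c - b)) := by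
    rw [← area_uv, ← Wb, ← Wc, r1]
    simp only [area, Complex.sub_re, Complex.sub_im]
    ring
  have A3 : area (W I) (W (𝒮.o I)) = mc * md * Real.sin (Real.pi * (a + 5 - c)) := by
    rw [← area_uv, ← Wc, ← Wd, r1, r2]
    simp only [area, Complex.sub_re, Complex.sub_im, Complex.neg_re, Complex.neg_im]
    ring
  have pos_of : ∀ {m n s : ℝ}, 0 < m → 0 < n → 0 ≤ m * n * s → 0 ≤ s := by
    intro m n s hm hn h
    by_contra hcon
    push Not at hcon
    have := mul_neg_of_pos_of_neg (mul_pos hm hn) hcon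
    linarith
  have neg_of : ∀ {m n s : ℝ}, 0 < m → 0 < n → m * n * s < 0 → s < 0 := by
    intro m n s hm hn h
    by_contra hcon
    push Not at hcon
    have := mul_nonneg (mul_pos hm hn).le hcon
    linarith
  have hx : b - a < 2 := by
    by_contra hcon
    push Not at hcon
    have s1 := sin_pi_nonneg' hcon (by linarith)
    have s2 : 0 ≤ area (W I) (W (𝒮.o I)) := by
      rw [A1]; exact mul_nonneg (mul_pos hma hmb).le s1
    have s3 : 2 ≤ c - b := by
      by_contra hy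
      push Not at hy
      have s4 := sin_pi_neg' (t := c - b) (by linarith) hy
      rw [A2] at s2
      have := pos_of hmb hmc s2
      linarith
    have s4 : 2 ≤ a + 5 - c := by
      by_contra hy
      push Not at hy
      have s4 := sin_pi_neg' (t := a + 5 - c) (by linarith) hy
      rw [A3] at s2
      have := pos_of hmc hmd s2
      linarith
    linarith
  have hs1 := sin_pi_neg' (t := b - a) (by linarith) hx
  have hneg : area (W I) (W (𝒮.o I)) < 0 := by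
    rw [A1]; exact mul_neg_of_pos_of_neg (mul_pos hma hmb) hs1
  have hy : c - b < 2 := by
    by_contra hcon
    push Not at hcon
    have s1 := sin_pi_nonneg' hcon (by linarith)
    have s2 := hneg
    rw [A2] at s2
    have := neg_of hmb hmc s2
    linarith
  -- the orientation
  have hdet : 0 < LinearMap.det L := by
    have h1 := area_map L (D.Z I) (D.Z (𝒮.o I))
    rw [← hL, ← hL, hI.2, hI1.2] at h1
    have h2 := area_uv φ (φ + 5 / 3) 1 1
    simp only [Complex.ofReal_one, one_mul] at h2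
    rw [h2, show Real.pi * (φ + 5 / 3 - φ) = Real.pi * (5 / 3) by ring, sin_5] at h1
    rw [h1] at hneg
    have h3 : 0 < Real.sqrt 3 / 2 := by positivity
    nlinarith
  have hinj : Function.Injective L := by
    rw [injective_iff_map_eq_zero]
    intro z hz
    have h1 : ∀ w, area z w = 0 := by
      intro w
      have h2 := area_map L z w
      rw [hz] at h2
      have h3 : area 0 (L w) = 0 := by simp [area]
      rw [h3] at h2
      rcases mul_eq_zero.1 h2.symm with h4 | h4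
      · exact absurd h4 hdet.ne'
      · exact h4
    have h2 := h1 Complex.I
    have h3 := h1 1
    simp [area] at h2 h3
    exact Complex.ext h2 h3
  let Le : ℂ ≃ₗ[ℝ] ℂ := LinearEquiv.ofInjectiveEndo L hinj
  have hLe : ∀ z, Le z = L z := fun z => rfl
  have hLe' : (Le : ℂ →ₗ[ℝ] ℂ) = L := LinearMap.ext fun z => rfl
  obtain ⟨H₀, hH₀⟩ := GLTilde.exists_lift Le (by rw [hLe']; exact hdet)
  have hH₀' : ∀ z, H₀.g z = L z := fun z => by rw [hH₀, hLe]
  obtain ⟨n, hn, h1⟩ := H₀.compat' φ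
  rw [hH₀', ← hI.2, ← hL, Wa] at h1
  obtain ⟨-, k, hk⟩ := uv_inj hma hn h1
  let H := (GLTilde.trans k).comp H₀
  have hHf : ∀ x, H.f x = H₀.f x + 2 * k := fun x => rfl
  have hHg : ∀ z, H.g z = L z := fun z => hH₀' z
  have ea : H.f φ = a := by rw [hHf, hk]
  have step : ∀ {x y : ℝ} {E : T} {m : ℝ}, 0 < m → D.Z E = uv x → W E = m * uv y →
      y - 1 < H.f x → H.f x < y + 1 → H.f x = y := by
    intro x y E m hm h1 h2 h3 h4
    obtain ⟨n, hn, h5⟩ := H.compat' x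
    rw [hHg, ← h1, ← hL, h2] at h5
    obtain ⟨-, j, hj⟩ := uv_inj hm hn h5
    have h6 : (-1 : ℝ) < ((2 * j : ℤ) : ℝ) := by push_cast; linarith
    have h7 : ((2 * j : ℤ) : ℝ) < 1 := by push_cast; linarith
    have h8 : -1 < 2 * j := by exact_mod_cast h6
    have h9 : 2 * j < 1 := by exact_mod_cast h7
    have h10 : j = 0 := by omega
    rw [h10] at hj
    push_cast at hj
    linarith
  have eb : H.f (φ + 5 / 3) = b := by
    have h3 : H.f (φ + (1 : ℤ)) < H.f (φ + 5 / 3) := H.mono (by push_cast; linarith)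
    have h4 : H.f (φ + 5 / 3) < H.f (φ + (2 : ℤ)) := H.mono (by push_cast; linarith)
    rw [H.per_int, ea] at h3 h4
    push_cast at h3 h4
    exact step hmb hI1.2 Wb (by linarith) (by linarith)
  have ec : H.f (φ + 5 / 3 + 5 / 3) = c := by
    have h3 : H.f (φ + 5 / 3 + (1 : ℤ)) < H.f (φ + 5 / 3 + 5 / 3) := H.mono (by push_cast; linarith)
    have h4 : H.f (φ + 5 / 3 + 5 / 3) < H.f (φ + 5 / 3 + (2 : ℤ)) := H.mono (by push_cast; linarith)
    rw [H.per_int, eb] at h3 h4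
    push_cast at h3 h4
    exact step hmc hI2.2 Wc (by linarith) (by linarith)
  exact ⟨H, hHg, by rw [ea]; exact ha, by rw [eb]; exact hb, by rw [ec]; exact hc⟩

end gap

section compare

variable (hT : ExtFinite 𝕜 T) (D : NumData 𝒮 (5 / 3)) {σ : Slicing T} (N : IsNorm D σ)
  {τ : Slicing T} (hτ : IsCharge τ D.Z) {φ₀ : ℝ}
  (test : ∀ j : ℤ, ∃ J : T, σ.P (φ₀ + (j : ℝ) / 3) J ∧ τ.P (φ₀ + (j : ℝ) / 3) J ∧ ¬ IsZero J)

include hT N hτ test

lemma ge_of_test {ψ : ℝ} {A : T} (hA : τ.P ψ A) : σ.Ge (ψ - 2 / 3) A := by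
  by_cases hz : IsZero A
  · exact ge_of_isZero hz
  obtain ⟨α, hα⟩ := σ.exists_isMin hz
  refine hα.ge.mono ?_
  obtain ⟨A', D', a, d, c, ht, hD, hDz, hA'⟩ := hα
  obtain ⟨J, hJ1, hJ2, hJz⟩ := test (⌊3 * (α + 1 / 3 - φ₀)⌋ + 1)
  have h1 : ((⌊3 * (α + 1 / 3 - φ₀)⌋ : ℤ) : ℝ) ≤ 3 * (α + 1 / 3 - φ₀) := Int.floor_le _
  have h2 : 3 * (α + 1 / 3 - φ₀) < ((⌊3 * (α + 1 / 3 - φ₀)⌋ : ℤ) : ℝ) + 1 :=
    Int.lt_floor_add_one _
  push_cast at hJ1 hJ2
  obtain ⟨f, hf⟩ := nv_5' hT D N hD hJ1 hDz hJz (by linarith) (by linarith)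
  have h3 : d ≫ f ≠ 0 := by
    intro h0
    obtain ⟨g, hg⟩ := desc₃ ht f h0
    have hg0 : g = 0 := hA'.shift1 _ (by linarith) J hJ1 g
    apply hf
    rw [← hg, hg0, comp_zero]
  by_contra hc
  push Not at hc
  exact h3 (τ.hom _ _ _ _ (by linarith) hA hJ2 _)

lemma le_of_test {ψ : ℝ} {A : T} (hA : τ.P ψ A) : σ.Le (ψ + 2 / 3) A := by
  by_cases hz : IsZero A
  · exact le_of_isZero hz
  obtain ⟨α, hα⟩ := σ.exists_isMax hz
  refine hα.le.mono ?_
  obtain ⟨C, A'', i, j, c, ht, hC, hCz, hA''⟩ := hα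
  obtain ⟨J, hJ1, hJ2, hJz⟩ := test (⌈3 * (α - 1 / 3 - φ₀)⌉ - 1)
  have h1 : 3 * (α - 1 / 3 - φ₀) ≤ ((⌈3 * (α - 1 / 3 - φ₀)⌉ : ℤ) : ℝ) := Int.le_ceil _
  have h2 : ((⌈3 * (α - 1 / 3 - φ₀)⌉ : ℤ) : ℝ) < 3 * (α - 1 / 3 - φ₀) + 1 :=
    Int.ceil_lt_add_one _
  push_cast at hJ1 hJ2
  obtain ⟨f, hf⟩ := nv_5' hT D N hJ1 hC hJz hCz (by linarith) (by linarith)
  have h3 : f ≫ i ≠ 0 := by
    intro h0
    obtain ⟨g, hg⟩ := fac (inv_rot_of_distTriang _ ht) f h0
    have hg0 : g = 0 := hA''.shiftm1 _ (by linarith) J hJ1 g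
    apply hf
    rw [← hg, hg0, zero_comp]
    rfl
  by_contra hc
  push Not at hc
  exact h3 (τ.hom _ _ _ _ (by linarith) hJ2 hA _)

/-- Comparison of bounds. -/
lemma ge_conv {t : ℝ} {X : T} (hX : σ.Ge t X) : τ.Ge (t - 2 / 3) X := by
  intro ψ hψ Y hY f
  exact hom_zero (σ := σ) (s := ψ + 2 / 3) (t := t) (by linarith) hX
    (le_of_test hT D N hτ test hY) f

lemma le_conv {t : ℝ} {X : T} (hX : σ.Le t X) : τ.Le (t + 2 / 3) X := by
  intro ψ hψ Y hY f
  exact hom_zero (σ := σ) (s := t) (t := ψ - 2 / 3) (by linarith)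
    (ge_of_test hT D N hτ test hY) hX f

/-- Semistable objects of the second slicing are semistable for the first one. -/
theorem P_of_test {ψ : ℝ} {E : T} (hE : τ.P ψ E) : σ.P ψ E := by
  by_cases hEz : IsZero E
  · exact σ.zero _ _ hEz
  have hEge := ge_of_test hT D N hτ test hE
  have hEle := le_of_test hT D N hτ test hE
  have hC := N.charge
  obtain ⟨A, B, a, b, c, ht, hA, hB⟩ := σ.exists_trunc ψ E
  have hAle : σ.Le (ψ + 2 / 3) A := le_sub ht hEle (hB.mono (by linarith))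
  have hAz : IsZero A := by
    by_contra hAz
    obtain ⟨m, x, hm, hx1, hx2, hx⟩ := hC.half_open hA (hAle.mono (by linarith)) hAz
    have hx3 : x ≤ ψ + 2 / 3 := by
      obtain ⟨μ, hμ⟩ := σ.exists_isMin hAz
      have h4 := hμ.ge
      obtain ⟨A', D', a', d, c', ht', hD, hDz, hA'⟩ := hμ
      have h5 : ψ < μ := hA.min_lt ht' hD hDz hA'
      obtain ⟨n, y, hn, hy1, hy2, hy⟩ := hC.sector (show ψ + 2 / 3 - μ < 1 by linarith) h4 hAle hAz
      rw [hx] at hy
      obtain ⟨-, k, hk⟩ := uv_inj hm hn hy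
      have h6 : ((2 * k : ℤ) : ℝ) < 2 := by push_cast; linarith
      have h7 : (-2 : ℝ) < ((2 * k : ℤ) : ℝ) := by push_cast; linarith
      have h8 : 2 * k < 2 := by exact_mod_cast h6
      have h9 : -2 < 2 * k := by exact_mod_cast h7
      have h10 : k = 0 := by omega
      rw [h10] at hk
      push_cast at hk
      linarith
    obtain ⟨ρ, C, A'', i, j, c', ht', hC', hCz, hA''⟩ := τ.exists_max hAz
    have hτle : τ.Le ρ A := Le.ext ht' (le_of_P hC') hA''.le
    have hτge : τ.Ge (ψ - 2 / 3) A := ge_conv hT D N hτ test hA.ge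
    rcases le_or_gt ρ ψ with h | h
    · have h1 : τ.Le (ψ - 1 + 1) A := hτle.mono (by linarith)
      obtain ⟨n, y, hn, hy1, hy2, hy⟩ := hτ.half_open (hτge.gt (show ψ - 1 < ψ - 2 / 3 by linarith))
        h1 hAz
      rw [hx] at hy
      obtain ⟨-, k, hk⟩ := uv_inj hm hn hy
      have h6 : ((2 * k : ℤ) : ℝ) < 2 := by push_cast; linarith
      have h7 : (0 : ℝ) < ((2 * k : ℤ) : ℝ) := by push_cast; linarith
      have h8 : 2 * k < 2 := by exact_mod_cast h6
      have h9 : 0 < 2 * k := by exact_mod_cast h7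
      omega
    · have hi : i ≠ 0 := mor₁_ne_zero ht' hCz (fun g => hA''.shiftm1 ρ (by linarith) C hC' g)
      have h1 : i ≫ a = 0 := τ.hom ρ ψ C E h hC' hE _
      obtain ⟨g, hg⟩ := fac (inv_rot_of_distTriang _ ht) i h1
      have h2 : τ.Le (ψ - 1 + 2 / 3) (B⟦(-1 : ℤ)⟧) := le_conv hT D N hτ test hB.shiftm1
      have hg0 : g = 0 := h2 ρ (by linarith) C hC' g
      apply hi
      rw [← hg, hg0, zero_comp]
      rfl
  have : IsIso b := (Triangle.isZero₁_iff_isIso₂ _ ht).1 hAz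
  have hEle' : σ.Le ψ E := hB.iso (asIso b).symm
  obtain ⟨m, hm, hZ⟩ := hτ.ph _ _ hE hEz
  have h1 : σ.P (ψ - 1 + 1) E := by
    refine hC.flat (hEge.gt (by linarith)) (by rw [sub_add_cancel]; exact hEle') ?_
    rw [hZ, im_conj_mul, show Real.pi * (ψ - (ψ - 1)) = Real.pi by ring, Real.sin_pi, mul_zero]
  rwa [sub_add_cancel] at h1

theorem eq_of_test (ψ : ℝ) (E : T) : τ.P ψ E ↔ σ.P ψ E := by
  refine ⟨fun h => P_of_test hT D N hτ test h, fun h => ?_⟩
  apply P_of_ge_le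
  · intro χ hχ Y hY f
    exact σ.hom _ _ _ _ hχ h (P_of_test hT D N hτ test hY) f
  · intro χ hχ Y hY f
    exact σ.hom _ _ _ _ hχ (P_of_test hT D N hτ test hY) h f

end compare

end Pool.Agent.H934.K
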