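import Mathlib
import Pool.Agent.H934.K.CoreB
set_option autoImplicit false
set_option linter.unusedSectionVars false
set_option linter.unusedVariables false

open CategoryTheory CategoryTheory.Limits CategoryTheory.Pretriangulated ZeroObject

namespace Pool.Agent.H934.K

universe w v u

variable {𝕜 : Type w} [Field 𝕜] {T : Type u} [Category.{v} T] [Preadditive T] [HasZeroObject T] [HasShift T ℤ]
  [∀ n : ℤ, (shiftFunctor T n).Additive] [Pretriangulated T] [IsTriangulated T] [Linear 𝕜 T]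
  [∀ n : ℤ, (shiftFunctor T n).Linear 𝕜]

variable {𝒮 : SerreFunctor 𝕜 T}

open Pool.Agent.H934.Slicing

section sod

variable (hT : ExtFinite 𝕜 T) (D : NumData 𝒮 (5 / 3)) (hq : D.q = 1) {σ : Slicing T}
  (N : IsNorm D σ) {A E B : T} {a : A ⟶ E} {b : E ⟶ B} {c : B ⟶ A⟦(1 : ℤ)⟧}
  (ht : Triangle.mk a b c ∈ distTriang T) (hAB : ∀ (i : ℤ) (f : A ⟶ B⟦i⟧), f = 0) {φ : ℝ}
  (hE : IsUn D σ φ E)

include hT hq N ht hAB hE

/-- A triangle `A ⟶ E ⟶ B` with `Hom(A, B⟦i⟧) = 0` for all `i` and with a unit object `E` is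
trivial. -/
theorem isZero_or : IsZero A ∨ IsZero B := by
  have hC := N.charge
  have hAB0 : ∀ f : A ⟶ B, f = 0 := by
    intro f
    have h := hAB 0 (f ≫ ((shiftFunctorZero T ℤ).app B).inv)
    rw [← cancel_mono ((shiftFunctorZero T ℤ).app B).inv, h, zero_comp]
  have hA1 := ge_of_tri' hT D N ht hAB0 hE.1
  have hA2 := le_of_tri hT D N ht hAB0 hE.1
  have hB1 := ge_of_tri hT D N ht hAB0 hE.1
  have hB2 := le_of_tri' hT D N ht hAB0 hE.1
  have hadd : D.Z E = D.Z A + D.Z B := D.add _ ht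
  have hdich := dichotomy hT D hq N ht (fun i _ => hAB i) hE.1 hE.2
  have huv1 : uv (φ + 1) = - uv φ := by rw [uv_add, uv_one]; ring
  have huvm : uv (φ - 1) = - uv φ := by
    have h : uv φ = uv (φ - 1 + 1) := by congr 1; ring
    rw [uv_add, uv_one] at h
    rw [h]; ring
  obtain ⟨r, hr⟩ : ∃ r : ℝ, D.Z A = (r : ℂ) * uv φ := by
    rcases hdich with h | h
    · exact ⟨0, by rw [h]; simp⟩
    · exact ⟨1, by rw [h, hE.2]; simp⟩
  obtain ⟨r', hr'⟩ : ∃ r : ℝ, D.Z B = (r : ℂ) * uv φ := by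
    refine ⟨1 - r, ?_⟩
    have : D.Z B = D.Z E - D.Z A := by rw [hadd]; ring
    rw [this, hE.2, hr]; push_cast; ring
  -- truncations
  obtain ⟨A₁, A₂, a₁, a₂, a₃, htA, hA₁, hA₂⟩ := σ.exists_trunc (φ - 1) A
  have hA₂P : σ.P (φ - 1) A₂ := P_of_ge_le (ge_quot htA hA1 (hA₁.ge.mono (by linarith))) hA₂
  have hA₁P : σ.P φ A₁ := by
    have h1 : σ.Le (φ - 1 + 1) A₁ := le_sub htA (by rwa [sub_add_cancel]) (hA₂.mono (by linarith))
    have h2 : D.Z A = D.Z A₁ + D.Z A₂ := D.add _ htA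
    have h3 := hC.eq_norm hA₂P
    have h4 : D.Z A₁ = ((r + ‖D.Z A₂‖ : ℝ) : ℂ) * uv φ := by
      have : D.Z A₁ = D.Z A - D.Z A₂ := by rw [h2]; ring
      rw [this, hr, h3, huvm]
      simp only [Complex.ofReal_add, norm_mul, norm_neg, norm_uv, mul_one,
        Complex.norm_real, norm_norm]
      ring
    have h5 := hC.flat hA₁ h1 (by
      rw [h4, im_conj_mul]
      have : Real.pi * (φ - (φ - 1)) = Real.pi := by ring
      rw [this, Real.sin_pi, mul_zero])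
    rwa [sub_add_cancel] at h5
  obtain ⟨B₁, B₂, b₁, b₂, b₃, htB, hB₁, hB₂⟩ := σ.exists_trunc φ B
  have hB₂P : σ.P φ B₂ := P_of_ge_le (ge_quot htB hB1 (hB₁.ge.mono (by linarith))) hB₂
  have hB₁P : σ.P (φ + 1) B₁ := by
    have h1 : σ.Le (φ + 1) B₁ := le_sub htB hB2 (hB₂.mono (by linarith))
    have h2 : D.Z B = D.Z B₁ + D.Z B₂ := D.add _ htB
    have h3 := hC.eq_norm hB₂P
    have h4 : D.Z B₁ = ((r' - ‖D.Z B₂‖ : ℝ) : ℂ) * uv φ := by
      have : D.Z B₁ = D.Z B - D.Z B₂ := by rw [h2]; ring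
      rw [this, hr', h3]
      simp only [Complex.ofReal_sub, norm_mul, norm_uv, mul_one, Complex.norm_real, norm_norm]
      ring
    exact hC.flat hB₁ h1 (by
      rw [h4, im_conj_mul]
      simp)
  have hS : σ.Simp φ E := stable_unit hT D hq N hC (L := LinearMap.id) (fun X => rfl)
    one_pos (fun ψ X hX hz => one_le_norm D hq (hC.ne_zero hX hz)) hE.1 hE.2 hE.1
  by_cases hg : b ≫ b₂ = 0
  · right
    obtain ⟨t, htt⟩ := desc₃ ht b₂ hg
    obtain ⟨u, v, w, htA'⟩ : IsTri (A₁⟦(1 : ℤ)⟧) (A⟦(1 : ℤ)⟧) (A₂⟦(1 : ℤ)⟧) :=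
      isTri_shift (isTri_of_dist htA) 1
    have hA₁1 : σ.P (φ + 1) (A₁⟦(1 : ℤ)⟧) := (σ.shift _ _).2 hA₁P
    have hA₂1 : σ.P φ (A₂⟦(1 : ℤ)⟧) := by
      have := (σ.shift (φ - 1) A₂).2 hA₂P
      rwa [sub_add_cancel] at this
    have hB₁1 : σ.P (φ + 1 + 1) (B₁⟦(1 : ℤ)⟧) := (σ.shift _ _).2 hB₁P
    obtain ⟨k, hk⟩ := Slicing.desc htA' t (σ.hom (φ + 1) φ _ _ (by linarith) hA₁1 hB₂P _)
    have hkb : k ≫ b₃ = 0 := serre_zero 𝒮 (fun g =>
      σ.hom (φ + 1 + 1) (φ + 5 / 3) _ _ (by linarith) hB₁1 ((N.ser _ _).1 hA₂1) g) _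
    obtain ⟨t', ht'⟩ := fac₃ htB t (by
      rw [← hk, Category.assoc, hkb, comp_zero])
    have ht0 : t' = 0 := shift_hom_zero 1 (fun f => hAB (-1) f) t'
    have hb₂ : b₂ = 0 := by rw [← htt, ← ht', ht0, zero_comp, comp_zero]
    have hB₂z : IsZero B₂ := by
      by_contra hz
      exact mor₂_ne_zero htB hz (fun g => hB₁.shift1 φ (by linarith) B₂ hB₂P g) hb₂
    have : IsIso b₁ := (Triangle.isZero₃_iff_isIso₁ _ htB).1 hB₂z
    have hBP : σ.P (φ + 1) B := σ.iso _ _ _ ⟨asIso b₁⟩ hB₁P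
    by_contra hBz
    obtain ⟨m, hm, hmZ⟩ := hC.ph _ _ hBP hBz
    have h1 : D.Z B = 0 ∨ D.Z B = uv φ := by
      rcases hdich with h | h
      · right
        rw [h, zero_add] at hadd
        rw [← hadd, hE.2]
      · left
        rw [h] at hadd
        linear_combination (-1 : ℂ) * hadd
    rcases h1 with h | h
    · exact hC.ne_zero hBP hBz h
    · rw [h, huv1] at hmZ
      have h2 : ((m + 1 : ℝ) : ℂ) * uv φ = 0 := by push_cast; linear_combination hmZ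
      rcases mul_eq_zero.1 h2 with h3 | h3
      · have : m + 1 = 0 := by exact_mod_cast h3
        linarith
      · exact uv_ne_zero φ h3
  · left
    obtain ⟨X, p, q, htX, hX⟩ := cone_simp hC hS hB₂P (b ≫ b₂) hg
    have hab : a ≫ b = 0 := comp_distTriang_mor_zero₁₂ _ ht
    have h1 : a₁ ≫ a = 0 := by
      obtain ⟨g, hg'⟩ := fac (inv_rot_of_distTriang _ htX) (a₁ ≫ a) (by
        change (a₁ ≫ a) ≫ (b ≫ b₂) = 0
        rw [Category.assoc, ← Category.assoc a b b₂, hab, zero_comp, comp_zero])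
      have hX1 : σ.P (φ - 1) (X⟦(-1 : ℤ)⟧) := by
        have := P_shift_neg hX 1
        simpa using this
      have hg0 : g = 0 := σ.hom φ (φ - 1) _ _ (by linarith) hA₁P hX1 g
      exact hg'.symm.trans (by rw [hg0]; exact zero_comp)
    obtain ⟨s, hs⟩ := fac (inv_rot_of_distTriang _ ht) a₁ h1
    obtain ⟨u, v, w, htB'⟩ : IsTri (B₁⟦(-1 : ℤ)⟧) (B⟦(-1 : ℤ)⟧) (B₂⟦(-1 : ℤ)⟧) :=
      isTri_shift (isTri_of_dist htB) (-1)
    have hB₂1 : σ.P (φ - 1) (B₂⟦(-1 : ℤ)⟧) := by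
      have := P_shift_neg hB₂P 1
      simpa using this
    have hB₁1 : σ.P φ (B₁⟦(-1 : ℤ)⟧) := by
      have := P_shift_neg hB₁P 1
      simpa using this
    have hA₂1 : σ.P (φ - 1 - 1) (A₂⟦(-1 : ℤ)⟧) := by
      have := P_shift_neg hA₂P 1
      simpa using this
    obtain ⟨k, hk⟩ := fac htB' s (σ.hom φ (φ - 1) _ _ (by linarith) hA₁P hB₂1 _)
    have hk0 : ∀ g : A₂⟦(-1 : ℤ)⟧ ⟶ B₁⟦(-1 : ℤ)⟧, g = 0 := fun g => serre_zero 𝒮 (fun g =>
      σ.hom φ (φ - 1 - 1 + 5 / 3) _ _ (by linarith) hB₁1 ((N.ser _ _).1 hA₂1) g) g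
    obtain ⟨s', hs'⟩ := Slicing.desc (inv_rot_of_distTriang _ htA) s (by
      rw [← hk]
      exact (Category.assoc _ _ _).symm.trans ((congrArg (· ≫ u) (hk0 _)).trans zero_comp))
    have hs0 : s' = 0 := hAB (-1) s'
    have hs00 : s = 0 := hs'.symm.trans (by rw [hs0]; exact comp_zero)
    have ha₁ : a₁ = 0 := hs.symm.trans (by rw [hs00]; exact zero_comp)
    have hA₁z : IsZero A₁ := by
      by_contra hz
      refine mor₁_ne_zero htA hz (fun g => ?_) ha₁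
      exact σ.hom φ (φ - 1 - 1) _ _ (by linarith) hA₁P hA₂1 g
    have : IsIso a₂ := (Triangle.isZero₁_iff_isIso₂ _ htA).1 hA₁z
    have hAP : σ.P (φ - 1) A := σ.iso _ _ _ ⟨(asIso a₂).symm⟩ hA₂P
    by_contra hAz
    obtain ⟨m, hm, hmZ⟩ := hC.ph _ _ hAP hAz
    rcases hdich with h | h
    · exact hC.ne_zero hAP hAz h
    · rw [h, hE.2, huvm] at hmZ
      have h2 : ((m + 1 : ℝ) : ℂ) * uv φ = 0 := by push_cast; linear_combination hmZ
      rcases mul_eq_zero.1 h2 with h3 | h3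
      · have : m + 1 = 0 := by exact_mod_cast h3
        linarith
      · exact uv_ne_zero φ h3

end sod

end Pool.Agent.H934.K
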