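import Mathlib
import Pool.Agent.H934.K.Indec
set_option autoImplicit false
set_option linter.unusedSectionVars false
set_option linter.unusedVariables false

open CategoryTheory CategoryTheory.Limits CategoryTheory.Pretriangulated ZeroObject

namespace Pool.Agent.H934.K

universe w v u

section defs

variable {𝕜 : Type w} [Field 𝕜] {T : Type u} [Category.{v} T] [Preadditive T] [HasZeroObject T] [HasShift T ℤ]
  [∀ n : ℤ, (shiftFunctor T n).Additive] [Pretriangulated T]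

/-- `T = ⟨𝒜, ℬ⟩` is a semiorthogonal decomposition: `𝒜` and `ℬ` are full triangulated
subcategories, there are no nonzero morphisms from objects of `ℬ` to objects of `𝒜`, and every
object `E` fits in a distinguished triangle `B ⟶ E ⟶ A ⟶ B⟦1⟧` with `B` in `ℬ` and `A` in `𝒜`. -/
structure IsSOD (𝒜 ℬ : ObjectProperty T) : Prop where
  triA : 𝒜.IsTriangulated
  triB : ℬ.IsTriangulated
  orth : ∀ {B A : T}, ℬ B → 𝒜 A → ∀ f : B ⟶ A, f = 0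
  dec : ∀ E : T, ∃ (B A : T) (b : B ⟶ E) (a : E ⟶ A) (c : A ⟶ B⟦(1 : ℤ)⟧),
    ℬ B ∧ 𝒜 A ∧ Triangle.mk b a c ∈ distTriang T

variable (T) in
/-- `T` is indecomposable: it has no nontrivial semiorthogonal decomposition. -/
def Indecomposable : Prop :=
  ∀ 𝒜 ℬ : ObjectProperty T, IsSOD 𝒜 ℬ → (∀ A : T, 𝒜 A → IsZero A) ∨ (∀ B : T, ℬ B → IsZero B)

end defs

variable {𝕜 : Type w} [Field 𝕜] {T : Type u} [Category.{v} T] [Preadditive T] [HasZeroObject T] [HasShift T ℤ]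
  [∀ n : ℤ, (shiftFunctor T n).Additive] [Pretriangulated T] [IsTriangulated T] [Linear 𝕜 T]
  [∀ n : ℤ, (shiftFunctor T n).Linear 𝕜]

variable {𝒮 : SerreFunctor 𝕜 T}

open Pool.Agent.H934.Slicing

section sod

variable {𝒜 ℬ : ObjectProperty T}

lemma iso_shift_mem {P : ObjectProperty T} (hP : P.IsTriangulated) {E : T}
    (h : P.isoClosure E) (n : ℤ) : P.isoClosure (E⟦n⟧) := by
  have := hP
  obtain ⟨F, hF, ⟨e⟩⟩ := h
  exact ⟨F⟦n⟧, P.le_shift n F hF, ⟨(shiftFunctor T n).mapIso e⟩⟩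

lemma orth_iso (h : IsSOD 𝒜 ℬ) {B A : T} (hB : ℬ.isoClosure B) (hA : 𝒜.isoClosure A)
    (f : B ⟶ A) : f = 0 := by
  obtain ⟨B', hB', ⟨e⟩⟩ := hB
  obtain ⟨A', hA', ⟨e'⟩⟩ := hA
  have := h.orth hB' hA' (e.inv ≫ f ≫ e'.hom)
  rw [← cancel_epi e.inv, ← cancel_mono e'.hom, Category.assoc, this, comp_zero, zero_comp]

variable (hT : ExtFinite 𝕜 T) (D : NumData 𝒮 (5 / 3)) (hq : D.q = 1) {σ : Slicing T}
  (N : IsNorm D σ) (h : IsSOD 𝒜 ℬ) 

include hT hq N h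

lemma unit_mem {φ : ℝ} {E : T} (hE : IsUn D σ φ E) : 𝒜.isoClosure E ∨ ℬ.isoClosure E := by
  obtain ⟨B, A, b, a, c, hB, hA, ht⟩ := h.dec E
  have hAB : ∀ (i : ℤ) (f : B ⟶ A⟦i⟧), f = 0 := fun i f => by
    have := h.triA
    exact h.orth hB (𝒜.le_shift i A hA) f
  rcases isZero_or hT D hq N ht hAB hE with h0 | h0
  · left
    have : IsIso a := (Triangle.isZero₁_iff_isIso₂ _ ht).1 h0
    exact ⟨A, hA, ⟨asIso a⟩⟩
  · right
    have : IsIso b := (Triangle.isZero₃_iff_isIso₁ _ ht).1 h0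
    exact ⟨B, hB, ⟨(asIso b).symm⟩⟩

/-- The Serre functor preserves the right-hand side. -/
lemma serre_mem {φ : ℝ} {E : T} (hE : IsUn D σ φ E) (hB : ℬ.isoClosure E) :
    ℬ.isoClosure (𝒮.o E) := by
  rcases unit_mem hT D hq N h (hE.serre N) with h1 | h1
  · exfalso
    refine hE.not_isZero N ((IsZero.iff_id_eq_zero E).2 ?_)
    exact serre_zero 𝒮 (fun g => orth_iso h hB h1 g) (𝟙 E)
  · exact h1

end sod

/-- **Indecomposability.** -/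
theorem indecomposable (hT : FracCY T 𝒮 5) {I : T} (hI1 : eul 𝕜 I I = -1)
    (hI2 : Module.finrank 𝕜 (I ⟶ I⟦(1 : ℤ)⟧) = 2) (σ₀ : StabCond 𝕜 T)
    (hσ₀ : SerreInvariant 𝒮 σ₀) : Indecomposable T := by
  intro 𝒜 ℬ h
  have hncl : ncl 𝕜 I ≠ 0 := by
    intro h0
    have := (ncl_eq_zero_iff I).1 h0 I
    omega
  have h35 : (3 : ℝ) * (5 / 3) = ((5 : ℤ) : ℝ) := by norm_num
  obtain ⟨D, hDI, hDq⟩ := exists_numData hT (by decide) hncl (s := 5 / 3) (by rw [uv_re, cos_5])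
      (by rw [uv_im, sin_5]; ring_nf; rw [Real.sq_sqrt (by norm_num)]; norm_num)
  have hq : D.q = 1 := by rw [hDq, hI1]; norm_num
  obtain ⟨H₀, hZ₀, N⟩ := normalise hT (by decide) h35 D σ₀ hσ₀
  set P₀ := σ₀.toSlicing.reparam H₀ with hP₀
  have hIz : ¬ IsZero I := by
    intro h0
    rw [D.Z_zero h0] at hDI
    exact zero_ne_one hDI
  obtain ⟨φ, hφ⟩ := (two_le hT.ext D N hIz).2 hI2.le
  have hun : IsUn D P₀ φ I := by
    refine ⟨hφ, ?_⟩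
    obtain ⟨m, hm, h1⟩ := N.ph _ _ hφ hIz
    rw [hDI] at h1
    have h2 := congrArg norm h1
    rw [norm_one, norm_mul, norm_uv, mul_one, Complex.norm_of_nonneg hm.le] at h2
    rw [← h2, Complex.ofReal_one, one_mul] at h1
    rw [hDI, h1]
  have hun1 := hun.serre N
  have hun2 := hun1.serre N
  have hun3 := hun2.serre N
  have key : (𝒜.isoClosure I ∧ 𝒜.isoClosure (𝒮.o I) ∧ 𝒜.isoClosure (𝒮.o (𝒮.o I))) ∨
      (ℬ.isoClosure I ∧ ℬ.isoClosure (𝒮.o I) ∧ ℬ.isoClosure (𝒮.o (𝒮.o I))) := by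
    have hback : ℬ.isoClosure (𝒮.o (𝒮.o (𝒮.o I))) → ℬ.isoClosure I := by
      intro h3
      obtain ⟨e⟩ := hT.cy I
      obtain ⟨F, hF, ⟨e'⟩⟩ := h3
      have h4 : ℬ.isoClosure (I⟦(5 : ℤ)⟧) := ⟨F, hF, ⟨e.symm ≪≫ e'⟩⟩
      obtain ⟨F', hF', ⟨e''⟩⟩ := iso_shift_mem h.triB h4 (-5)
      exact ⟨F', hF', ⟨((shiftFunctorCompIsoId T (5 : ℤ) (-5) (by ring)).app I).symm ≪≫ e''⟩⟩
    rcases unit_mem hT.ext D hq N h hun with h0 | h0
    · left
      have hno : ¬ ℬ.isoClosure I := fun h1 =>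
        hIz ((IsZero.iff_id_eq_zero I).2 (orth_iso h h1 h0 _))
      have hno2 : ¬ ℬ.isoClosure (𝒮.o (𝒮.o I)) := fun h1 =>
        hno (hback (serre_mem hT.ext D hq N h hun2 h1))
      have hno1 : ¬ ℬ.isoClosure (𝒮.o I) := fun h1 =>
        hno2 (serre_mem hT.ext D hq N h hun1 h1)
      exact ⟨h0, (unit_mem hT.ext D hq N h hun1).resolve_right hno1,
        (unit_mem hT.ext D hq N h hun2).resolve_right hno2⟩
    · right
      have h1 := serre_mem hT.ext D hq N h hun h0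
      exact ⟨h0, h1, serre_mem hT.ext D hq N h hun1 h1⟩
  have test : ∀ {Q : ObjectProperty T}, Q.IsTriangulated → Q.isoClosure I →
      Q.isoClosure (𝒮.o I) → Q.isoClosure (𝒮.o (𝒮.o I)) → ∀ j : ℤ, ∃ J : T,
      P₀.P (φ + (j : ℝ) / 3) J ∧ Q.isoClosure J ∧ ¬ IsZero J := by
    intro Q hQ q0 q1 q2 j
    obtain ⟨t, ht⟩ : ∃ t : ℤ, j = 3 * t ∨ j = 3 * t + 1 ∨ j = 3 * t + 2 := ⟨j / 3, by omega⟩
    rcases ht with ht | ht | ht
    · refine ⟨I⟦t⟧, ?_, iso_shift_mem hQ q0 t, fun h0 => hIz ((isZero_shift t).1 h0)⟩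
      have := P_shift hun.1 t
      rwa [show φ + (t : ℝ) = φ + (j : ℝ) / 3 by rw [ht]; push_cast; ring] at this
    · refine ⟨(𝒮.o (𝒮.o I))⟦t - 3⟧, ?_, iso_shift_mem hQ q2 _,
        fun h0 => hun2.not_isZero N ((isZero_shift _).1 h0)⟩
      have := P_shift hun2.1 (t - 3)
      rwa [show φ + 5 / 3 + 5 / 3 + ((t - 3 : ℤ) : ℝ) = φ + (j : ℝ) / 3 by
        rw [ht]; push_cast; ring] at this
    · refine ⟨(𝒮.o I)⟦t - 1⟧, ?_, iso_shift_mem hQ q1 _,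
        fun h0 => hun1.not_isZero N ((isZero_shift _).1 h0)⟩
      have := P_shift hun1.1 (t - 1)
      rwa [show φ + 5 / 3 + ((t - 1 : ℤ) : ℝ) = φ + (j : ℝ) / 3 by
        rw [ht]; push_cast; ring] at this
  rcases key with ⟨q0, q1, q2⟩ | ⟨q0, q1, q2⟩
  · right
    intro B hB
    by_contra hBz
    obtain ⟨α, A', F, a, d, c, ht, hF, hFz, hA'⟩ := P₀.exists_isMin hBz
    obtain ⟨J, hJ1, hJ2, hJz⟩ := test h.triA q0 q1 q2 (⌊3 * (α + 1 / 3 - φ)⌋ + 1)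
    have h1 : ((⌊3 * (α + 1 / 3 - φ)⌋ : ℤ) : ℝ) ≤ 3 * (α + 1 / 3 - φ) := Int.floor_le _
    have h2 : 3 * (α + 1 / 3 - φ) < ((⌊3 * (α + 1 / 3 - φ)⌋ : ℤ) : ℝ) + 1 :=
      Int.lt_floor_add_one _
    push_cast at hJ1
    obtain ⟨f, hf⟩ := nv_5' hT.ext D N hF hJ1 hFz hJz (by linarith) (by linarith)
    have h0 : d ≫ f = 0 := orth_iso h (ℬ.le_isoClosure _ hB) hJ2 _
    obtain ⟨g, hg⟩ := desc₃ ht f h0
    have hg0 : g = 0 := hA'.shift1 _ (by linarith) J hJ1 g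
    apply hf
    rw [← hg, hg0, comp_zero]
  · left
    intro A hA
    by_contra hAz
    obtain ⟨α, C, A'', i, j, c, ht, hC, hCz, hA''⟩ := P₀.exists_isMax hAz
    obtain ⟨J, hJ1, hJ2, hJz⟩ := test h.triB q0 q1 q2 (⌈3 * (α - 1 / 3 - φ)⌉ - 1)
    have h1 : 3 * (α - 1 / 3 - φ) ≤ ((⌈3 * (α - 1 / 3 - φ)⌉ : ℤ) : ℝ) := Int.le_ceil _
    have h2 : ((⌈3 * (α - 1 / 3 - φ)⌉ : ℤ) : ℝ) < 3 * (α - 1 / 3 - φ) + 1 :=
      Int.ceil_lt_add_one _
    push_cast at hJ1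
    obtain ⟨f, hf⟩ := nv_5' hT.ext D N hJ1 hC hJz hCz (by linarith) (by linarith)
    have h0 : f ≫ i = 0 := orth_iso h hJ2 (𝒜.le_isoClosure _ hA) _
    obtain ⟨g, hg⟩ := fac (inv_rot_of_distTriang _ ht) f h0
    have hg0 : g = 0 := hA''.shiftm1 _ (by linarith) J hJ1 g
    apply hf
    exact hg.symm.trans (by rw [hg0]; exact zero_comp)

end Pool.Agent.H934.K
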